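import Pool.Agent.H185Z.MM.Upper

/-!
# Perturbation of ranks along a line, and the test matrices
-/

namespace Pool.Agent.H185Z.MM

open Module Submodule Matrix

set_option linter.unusedSectionVars false

variable {F : Type} [Field F]

section Pert

variable {J K : Type} [Fintype J] [Fintype K] [DecidableEq J] [DecidableEq K]

theorem exists_PQ (M : Matrix J K F) :
    ∃ (P : Matrix (Fin M.rank) J F) (Q : Matrix K (Fin M.rank) F), P * M * Q = 1 := by
  let b : Basis (Fin M.rank) F (LinearMap.range M.mulVecLin) := Module.finBasis F _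
  have hv : ∀ j, ∃ v, M *ᵥ v = (b j : J → F) := fun j => (b j).2
  choose v hv using hv
  obtain ⟨G, hG⟩ := LinearMap.exists_extend (p := LinearMap.range M.mulVecLin)
    b.equivFun.toLinearMap
  refine ⟨LinearMap.toMatrix' G, Matrix.of fun k j => v j k, ?_⟩
  ext i j
  have h1 : (LinearMap.toMatrix' G * M * Matrix.of fun k j => v j k) i j =
      ((LinearMap.toMatrix' G * M) *ᵥ v j) i := rfl
  rw [h1, ← Matrix.mulVec_mulVec, hv, LinearMap.toMatrix'_mulVec]
  have h2 : G (b j) = b.equivFun (b j) := by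
    have := LinearMap.congr_fun hG (b j)
    simpa using this
  rw [h2, Basis.equivFun_self, Matrix.one_apply]
  simp [eq_comm]

theorem exists_bad {n : Type} [Fintype n] [DecidableEq n] (A B : Matrix n n F) (hB : B.det ≠ 0) :
    ∃ s : Finset F, s.card ≤ Fintype.card n ∧ ∀ t ∉ s, (t • A + B).det ≠ 0 := by
  classical
  set p : Polynomial F := ((Polynomial.X : Polynomial F) • A.map Polynomial.C +
    B.map Polynomial.C).det with hp
  have hev : ∀ t, p.eval t = (t • A + B).det := by
    intro t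
    have := (Polynomial.evalRingHom t).map_det
      ((Polynomial.X : Polynomial F) • A.map Polynomial.C + B.map Polynomial.C)
    rw [Polynomial.coe_evalRingHom] at this
    rw [hp, this]
    congr 1
    ext i j
    simp only [RingHom.mapMatrix_apply, Matrix.map_apply, Matrix.add_apply, Matrix.smul_apply,
      smul_eq_mul, Polynomial.coe_evalRingHom, Polynomial.eval_add, Polynomial.eval_mul,
      Polynomial.eval_X, Polynomial.eval_C]
  have hp0 : p ≠ 0 := fun h => hB (by have := hev 0; rw [h] at this; simpa using this.symm)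
  refine ⟨p.roots.toFinset, ?_, fun t ht h => ht ?_⟩
  · exact (Multiset.toFinset_card_le _).trans ((Polynomial.card_roots' p).trans
      (Polynomial.natDegree_det_X_add_C_le A B))
  · rw [Multiset.mem_toFinset, Polynomial.mem_roots hp0, Polynomial.IsRoot, hev, h]

theorem card_le_rank {n : Type} [Fintype n] [DecidableEq n] (M : Matrix J K F) (P : Matrix n J F)
    (Q : Matrix K n F) (h : (P * M * Q).det ≠ 0) : Fintype.card n ≤ M.rank := by
  rw [← Matrix.rank_of_det_ne_zero h]
  exact (Matrix.rank_mul_le_left _ _).trans (Matrix.rank_mul_le_right _ _)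

theorem pert_ge (M E : Matrix J K F) :
    ∃ s : Finset F, s.card ≤ Fintype.card K + 2 ∧ ∀ t ∉ s, M.rank ≤ (M + t • E).rank := by
  obtain ⟨P, Q, h⟩ := exists_PQ M
  obtain ⟨s, hs, hs'⟩ := exists_bad (P * E * Q) 1 (by simp)
  have := M.rank_le_card_width
  refine ⟨s, by simp at hs; omega, fun t ht => ?_⟩
  have h1 := card_le_rank (M + t • E) P Q (by
    rw [Matrix.mul_add, Matrix.add_mul, h, Matrix.mul_smul, Matrix.smul_mul, add_comm]
    exact hs' t ht)
  simpa using h1

theorem pert_gt (M E : Matrix J K F) (u : J → F) (v : K → F) (hu : u ᵥ* M = 0) (hv : M *ᵥ v = 0)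
    (h : u ⬝ᵥ (E *ᵥ v) ≠ 0) :
    ∃ s : Finset F, s.card ≤ Fintype.card K + 2 ∧ ∀ t ∉ s, M.rank < (M + t • E).rank := by
  classical
  obtain ⟨P, Q, hPQ⟩ := exists_PQ M
  let U : Matrix Unit J F := Matrix.of fun _ j => u j
  let W : Matrix K Unit F := Matrix.of fun k _ => v k
  have hU : U * M = 0 := by
    ext i k
    exact congrFun hu k
  have hW : M * W = 0 := by
    ext j i
    exact congrFun hv j
  have hUW : (U * E * W).det ≠ 0 := by
    rw [Matrix.det_unique, Matrix.mul_assoc]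
    exact h
  obtain ⟨s, hs, hs'⟩ := exists_bad (fromBlocks 0 0 (P * E * W) (P * E * Q))
    (fromBlocks (U * E * W) (U * E * Q) 0 1) (by
      rw [Matrix.det_fromBlocks_zero₂₁]; simpa using hUW)
  have := M.rank_le_card_width
  refine ⟨insert 0 s, (Finset.card_insert_le _ _).trans (by simp at hs; omega), fun t ht => ?_⟩
  rw [Finset.mem_insert, not_or] at ht
  have h1 := card_le_rank (M + t • E) (fromRows (t⁻¹ • U) P) (fromCols W Q) (by
    have e : fromRows (t⁻¹ • U) P * (M + t • E) * fromCols W Q =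
        t • fromBlocks 0 0 (P * E * W) (P * E * Q) + fromBlocks (U * E * W) (U * E * Q) 0 1 := by
      rw [fromRows_mul, fromRows_mul_fromCols, fromBlocks_smul, fromBlocks_add]
      have a1 : (t⁻¹ • U) * (M + t • E) = U * E := by
        rw [Matrix.smul_mul, Matrix.mul_add, hU, zero_add, Matrix.mul_smul, smul_smul,
          inv_mul_cancel₀ ht.1, one_smul]
      have a2 : P * (M + t • E) * W = t • (P * E * W) := by
        rw [Matrix.mul_add, Matrix.add_mul, Matrix.mul_assoc P M, hW, Matrix.mul_zero, zero_add,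
          Matrix.mul_smul, Matrix.smul_mul]
      have a3 : P * (M + t • E) * Q = t • (P * E * Q) + 1 := by
        rw [Matrix.mul_add, Matrix.add_mul, hPQ, Matrix.mul_smul, Matrix.smul_mul, add_comm]
      rw [a1, a2, a3]
      simp
    rw [e]
    exact hs' t ht.2)
  simp at h1
  omega

end Pert

theorem exists_improve [Fintype F] {X : Type} (ts : List X) (r0 : X → ℕ) (r : X → F → ℕ) (B : ℕ)
    (hge : ∀ τ ∈ ts, ∃ s : Finset F, s.card ≤ B ∧ ∀ t ∉ s, r0 τ ≤ r τ t) (τ0 : X) (h0 : τ0 ∈ ts)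
    (hgt : ∃ s : Finset F, s.card ≤ B ∧ ∀ t ∉ s, r0 τ0 < r τ0 t)
    (hcard : (ts.length + 1) * B < Fintype.card F) :
    ∃ t, (ts.map r0).sum < (ts.map fun τ => r τ t).sum := by
  classical
  have key : ∀ l : List X, (∀ τ ∈ l, ∃ s : Finset F, s.card ≤ B ∧ ∀ t ∉ s, r0 τ ≤ r τ t) →
      ∃ s : Finset F, s.card ≤ l.length * B ∧ ∀ t ∉ s, ∀ τ ∈ l, r0 τ ≤ r τ t := by
    intro l
    induction l with
    | nil => intro _; exact ⟨∅, by simp, by simp⟩
    | cons a l ih =>
      intro h
      obtain ⟨s1, h1, h1'⟩ := h a (by simp)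
      obtain ⟨s2, h2, h2'⟩ := ih fun τ hτ => h τ (List.mem_cons_of_mem _ hτ)
      refine ⟨s1 ∪ s2, (Finset.card_union_le _ _).trans ?_, fun t ht τ hτ => ?_⟩
      · simp only [List.length_cons]; nlinarith
      · rw [Finset.mem_union, not_or] at ht
        rcases List.mem_cons.1 hτ with rfl | hτ
        · exact h1' t ht.1
        · exact h2' t ht.2 τ hτ
  obtain ⟨s1, h1, h1'⟩ := key ts hge
  obtain ⟨s2, h2, h2'⟩ := hgt
  have h3 : (s1 ∪ s2).card < (Finset.univ : Finset F).card := by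
    have := Finset.card_union_le s1 s2
    rw [Finset.card_univ]
    nlinarith
  obtain ⟨t, -, ht⟩ := Finset.exists_mem_notMem_of_card_lt_card h3
  rw [Finset.mem_union, not_or] at ht
  exact ⟨t, List.sum_lt_sum _ _ (h1' t ht.1) ⟨τ0, h0, h2' t ht.2⟩⟩

variable {ι : Type} [Fintype ι] [DecidableEq ι]

/-- The matrix of a line. -/
def wdM (l : (ι → F) × (ι → F)) : Matrix ι ι F :=
  Matrix.of fun r s => l.1 r * l.2 s - l.2 r * l.1 s

theorem wdM_mulVec (l : (ι → F) × (ι → F)) (y : ι → F) : wdM l *ᵥ y = wd l y := by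
  ext r
  simp only [wdM, Matrix.mulVec, dotProduct, wd_apply, Matrix.of_apply, Pi.sub_apply, Pi.smul_apply,
    smul_eq_mul, Finset.sum_mul, ← Finset.sum_sub_distrib]
  exact Finset.sum_congr rfl fun s _ => by ring

/-- The four points of two lines, as rows. -/
def WM (W1 W2 : (ι → F) × (ι → F)) : Matrix (Fin 4) ι F := Matrix.of ![W1.1, W1.2, W2.1, W2.2]

/-- The test matrix. -/
def TM (A : Matrix ι ι F) (κ W1 W2 : (ι → F) × (ι → F)) : Matrix (ι ⊕ ι ⊕ Fin 4) (ι ⊕ ι) F :=
  fromRows (fromCols A 0) (fromRows (fromCols (wdM κ) A) (fromCols 0 (WM W1 W2)))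

theorem TM_add (A E : Matrix ι ι F) (t : F) (κ W1 W2 : (ι → F) × (ι → F)) :
    TM (A + t • E) κ W1 W2 = TM A κ W1 W2 + t • TM E 0 0 0 := by
  ext i j
  rcases i with i | i | i <;> rcases j with j | j <;> simp [TM, wdM, WM]
  fin_cases i <;> simp

theorem vecMul_skew {A : Matrix ι ι F} (hA : Skew A.mulVecLin) (u : ι → F) :
    u ᵥ* A = -(A *ᵥ u) := by
  ext j
  have h1 := hA.swap u (Pi.single j 1)
  simp only [Matrix.mulVecLin_apply] at h1
  rw [dotProduct_single, mul_one, dotProduct_comm, Matrix.dotProduct_mulVec, dotProduct_single,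
    mul_one] at h1
  rw [Pi.neg_apply, h1, neg_neg]

theorem wdM_lin (l : (ι → F) × (ι → F)) : (wdM l).mulVecLin = wd l := by
  exact LinearMap.ext fun y => wdM_mulVec l y

theorem FO_of_TM {A : Matrix ι ι F} (hA : Skew A.mulVecLin) (κ W1 W2 l : (ι → F) × (ι → F))
    (h : ∀ u v, u ᵥ* TM A κ W1 W2 = 0 → TM A κ W1 W2 *ᵥ v = 0 →
      u ⬝ᵥ (TM (wdM l) 0 0 0 *ᵥ v) = 0) : FO A.mulVecLin κ W1 W2 l := by
  intro n y u v hn hy hyW hv hu
  simp only [Matrix.mulVecLin_apply] at hn hy hv hu
  obtain ⟨a, ha, b, hb, hab⟩ := Submodule.mem_sup.1 hv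
  obtain ⟨s1, t1, rfl⟩ := mem_sp.1 ha
  obtain ⟨s2, t2, rfl⟩ := mem_sp.1 hb
  rw [perp_sup] at hyW
  have y1 := mem_perp_sp.1 hyW.1
  have y2 := mem_perp_sp.1 hyW.2
  have hκ : Skew (wdM κ).mulVecLin := by rw [wdM_lin]; exact wd_skew κ
  have := h (Sum.elim u (Sum.elim v ![s1, t1, s2, t2])) (Sum.elim n y) (by
    simp only [TM, sumElim_vecMul_fromRows, vecMul_fromCols, vecMul_zero, vecMul_skew hA,
      vecMul_skew hκ, wdM_mulVec]
    ext j
    rcases j with j | j
    · have := congrFun hu j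
      simp only [Pi.add_apply, Pi.zero_apply] at this
      simp only [Pi.add_apply, Sum.elim_inl, Pi.neg_apply, Pi.zero_apply]
      linear_combination -this
    · have := congrFun hab j
      simp only [Pi.add_apply, Pi.smul_apply, smul_eq_mul] at this
      simp only [Pi.add_apply, Sum.elim_inr, Pi.neg_apply, Pi.zero_apply, WM, Matrix.vecMul,
        dotProduct, Fin.sum_univ_four]
      simp
      linear_combination this) (by
    simp only [TM, fromRows_mulVec, fromCols_mulVec_sumElim, zero_mulVec, wdM_mulVec, hn,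
      add_zero, zero_add]
    ext j
    rcases j with j | j | j
    · simp
    · have := congrFun hy j
      simp only [Pi.add_apply, Pi.zero_apply] at this
      simp only [Pi.add_apply, Sum.elim_inl, Sum.elim_inr, Pi.zero_apply]
      linear_combination this
    · simp only [Sum.elim_inr, Pi.zero_apply]
      fin_cases j
      · exact y1.1
      · exact y1.2
      · exact y2.1
      · exact y2.2)
  simp only [TM, fromRows_mulVec, fromCols_mulVec_sumElim, zero_mulVec, wdM_mulVec, wd_zero,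
    add_zero, zero_add, sumElim_dotProduct_sumElim] at this
  have e : WM (0 : (ι → F) × (ι → F)) 0 *ᵥ y = 0 := by
    ext j; fin_cases j <;> simp [WM, Matrix.mulVec]
  rw [e, dotProduct_zero, add_zero] at this
  rw [dotProduct_comm, dotProduct_comm (wd l y)]
  exact this

/-- The potential. -/
noncomputable def Pot (ts : List (((ι → F) × (ι → F)) × ((ι → F) × (ι → F)) × ((ι → F) × (ι → F))))
    (A : Matrix ι ι F) : ℕ := (ts.map fun τ => (TM A τ.1 τ.2.1 τ.2.2).rank).sum

theorem FO_of_pot [Fintype F] {A : Matrix ι ι F} (hA : Skew A.mulVecLin)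
    (ts : List (((ι → F) × (ι → F)) × ((ι → F) × (ι → F)) × ((ι → F) × (ι → F))))
    (hcard : (ts.length + 1) * (2 * Fintype.card ι + 2) < Fintype.card F)
    (l : (ι → F) × (ι → F)) (h : ∀ t : F, Pot ts (A + t • wdM l) ≤ Pot ts A)
    (κ W1 W2 : (ι → F) × (ι → F)) (hτ : (κ, W1, W2) ∈ ts) : FO A.mulVecLin κ W1 W2 l := by
  refine FO_of_TM hA κ W1 W2 l fun u v hu hv => ?_
  by_contra hne
  have hc : Fintype.card (ι ⊕ ι) + 2 = 2 * Fintype.card ι + 2 := by simp; ring
  obtain ⟨t, ht⟩ := exists_improve ts (fun τ => (TM A τ.1 τ.2.1 τ.2.2).rank)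
    (fun τ t => (TM (A + t • wdM l) τ.1 τ.2.1 τ.2.2).rank) (2 * Fintype.card ι + 2)
    (fun τ _ => by
      simp only [TM_add]
      rw [← hc]
      exact pert_ge _ _) (κ, W1, W2) hτ (by
      simp only [TM_add]
      rw [← hc]
      exact pert_gt _ _ u v hu hv hne) hcard
  exact absurd (h t) (not_le.2 ht)

theorem Pot_le (ts : List (((ι → F) × (ι → F)) × ((ι → F) × (ι → F)) × ((ι → F) × (ι → F))))
    (A : Matrix ι ι F) : Pot ts A ≤ ts.length * (2 * Fintype.card ι) := by
  unfold Pot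
  have := List.sum_le_card_nsmul (ts.map fun τ => (TM A τ.1 τ.2.1 τ.2.2).rank)
    (2 * Fintype.card ι) (by
      intro x hx
      obtain ⟨τ, -, rfl⟩ := List.mem_map.1 hx
      have := (TM A τ.1 τ.2.1 τ.2.2).rank_le_card_width
      simp at this
      omega)
  simpa using this

variable {I : Type} [Fintype I] [DecidableEq I]

/-- The matrix of a weighted family of lines. -/
def AM (ℓ : I → (ι → F) × (ι → F)) (x : I → F) : Matrix ι ι F := ∑ i, x i • wdM (ℓ i)

theorem AM_lin (ℓ : I → (ι → F) × (ι → F)) (x : I → F) :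
    (AM ℓ x).mulVecLin = Aop ℓ x Finset.univ := by
  refine LinearMap.ext fun y => ?_
  rw [Aop_apply, Matrix.mulVecLin_apply, AM, Matrix.sum_mulVec]
  exact Finset.sum_congr rfl fun i _ => by rw [Matrix.smul_mulVec, wdM_mulVec]

theorem AM_update (ℓ : I → (ι → F) × (ι → F)) (x : I → F) (l : I) (t : F) :
    AM ℓ (Function.update x l (x l + t)) = AM ℓ x + t • wdM (ℓ l) := by
  unfold AM
  rw [← Finset.add_sum_erase _ _ (Finset.mem_univ l), ← Finset.add_sum_erase _ _ (Finset.mem_univ l),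
    Function.update_self, add_smul]
  have : ∑ i ∈ Finset.univ.erase l, Function.update x l (x l + t) i • wdM (ℓ i) =
      ∑ i ∈ Finset.univ.erase l, x i • wdM (ℓ i) :=
    Finset.sum_congr rfl fun i hi => by rw [Function.update_of_ne (Finset.ne_of_mem_erase hi)]
  rw [this]; abel

/-- A local optimum of the potential has maximum rank: the rank is twice the size of a maximum
matching. -/
theorem local_opt [Fintype F] (ℓ : I → (ι → F) × (ι → F)) (x : I → F)
    (ts : List (((ι → F) × (ι → F)) × ((ι → F) × (ι → F)) × ((ι → F) × (ι → F))))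
    (hcard : (ts.length + 1) * (2 * Fintype.card ι + 2) < Fintype.card F)
    (h0 : (0, 0, 0) ∈ ts) (h1 : ∀ k, (0, ℓ k, ℓ k) ∈ ts) (h2 : ∀ k i j, (ℓ k, ℓ i, ℓ j) ∈ ts)
    (h : ∀ l t, Pot ts (AM ℓ (Function.update x l t)) ≤ Pot ts (AM ℓ x)) :
    IsGreatest {n | ∃ M : Finset I, M.card = n ∧ Ind ℓ M} ((AM ℓ x).rank / 2) := by
  have hs : Skew (AM ℓ x).mulVecLin := by rw [AM_lin]; exact Aop_skew _ _ _
  have hh : ∀ l t, Pot ts (AM ℓ x + t • wdM (ℓ l)) ≤ Pot ts (AM ℓ x) := fun l t => by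
    rw [← AM_update]; exact h l _
  have hL : Loc ℓ (Aop ℓ x Finset.univ) := by
    rw [← AM_lin]
    exact ⟨hs, fun l => FO_of_pot hs ts hcard _ (hh l) _ _ _ h0,
      fun k l => FO_of_pot hs ts hcard _ (hh l) _ _ _ (h1 k),
      fun k i j l => FO_of_pot hs ts hcard _ (hh l) _ _ _ (h2 k i j)⟩
  have hr : (AM ℓ x).rank = finrank F (LinearMap.range (Aop ℓ x Finset.univ)) := by
    rw [← AM_lin]; rfl
  obtain ⟨M, -, hM, hle⟩ := lower ℓ x Finset.univ
  have hu := upper ℓ x hL M hM
  refine ⟨⟨M, by omega, hM⟩, ?_⟩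
  rintro n ⟨M', rfl, hM'⟩
  have := upper ℓ x hL M' hM'
  omega

end Pool.Agent.H185Z.MM
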