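import Pool.Agent.H185Z.MM.Rank
import Pool.Agent.H185Z.MM.Pert

/-!
# A deterministic polynomial-time algorithm for linear matroid parity modulo a prime
-/

namespace Pool.Agent.H185Z.MM

open Pool.Agent.NPC Module Submodule

/-- Lines: pairs of vectors. -/
abbrev Ln : Type := List ℕ × List ℕ

/-- An entry of the alternating matrix of a line. -/
def wdE (q : ℕ) (l : Ln) (r s : ℕ) : ℕ :=
  l.1.getD r 0 * l.2.getD s 0 + q * (l.2.getD r 0 * l.1.getD s 0)

/-- A row of the alternating matrix of a line. -/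
def wdRow (q : ℕ) (ds : List ℕ) (l : Ln) (r : ℕ) : List ℕ := ds.map fun s => wdE q l r s

/-- A row of the weighted sum of the alternating matrices. -/
def aRow (q : ℕ) (ds : List ℕ) (L : List Ln) (x : List ℕ) (r : ℕ) : List ℕ :=
  ds.map fun s =>
    ((List.range L.length).map fun i => x.getD i 0 * wdE q (L.getD i ([], [])) r s).sum

/-- A zero row. -/
def zRow (ds : List ℕ) : List ℕ := ds.map fun _ => 0

/-- The rows of a test matrix. -/
def tRows (q : ℕ) (ds : List ℕ) (L : List Ln) (x : List ℕ) (τ : Ln × Ln × Ln) : List (List ℕ) :=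
  (ds.map fun r => aRow q ds L x r ++ zRow ds) ++
    ((ds.map fun r => wdRow q ds τ.1 r ++ aRow q ds L x r) ++
      [zRow ds ++ τ.2.1.1, zRow ds ++ τ.2.1.2, zRow ds ++ τ.2.2.1, zRow ds ++ τ.2.2.2])

/-- The tests. -/
def tests (L : List Ln) : List (Ln × Ln × Ln) :=
  (([], []) :: L) ×ˢ ((([], []) :: L) ×ˢ (([], []) :: L))

/-- The potential. -/
def pot (q : ℕ) (ds : List ℕ) (L : List Ln) (x : List ℕ) : ℕ :=
  ((tests L).map fun τ => rk q (List.range (ds ++ ds).length) (tRows q ds L x τ)).sum

/-- Changing one weight. -/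
def upd (q : ℕ) (L : List Ln) (x : List ℕ) (l t : ℕ) : List ℕ :=
  (List.range L.length).map fun i => (if i = l then t else x.getD i 0) % (q + 1)

/-- Comparison of numbers. -/
def ltb (m n : ℕ) : Bool := decide (m < n)

/-- One step of local search. -/
def improve (q : ℕ) (vs ds : List ℕ) (L : List Ln) (x : List ℕ) : List ℕ :=
  ((((List.range L.length) ×ˢ vs).filter fun z =>
    ltb (pot q ds L x) (pot q ds L (upd q L x z.1 z.2))).head?).elim x
      (fun z => upd q L x z.1 z.2)

/-- The result of local search. -/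
def opt (q : ℕ) (vs ds : List ℕ) (L : List Ln) : List ℕ :=
  ((tests L) ×ˢ (ds ++ ds)).foldl (fun x _ => improve q vs ds L x) []

/-- The size of a maximum matching. -/
def nu (q : ℕ) (vs ds : List ℕ) (L : List Ln) : ℕ :=
  rk q ds (ds.map fun r => aRow q ds L (opt q vs ds L) r) / 2

section Poly

variable {α : Type} [TEnc α]

@[fun_prop] theorem poly_wdE {q : α → ℕ} {l : α → Ln} {r s : α → ℕ}
    (hq : Poly q) (hl : Poly l) (hr : Poly r) (hs : Poly s) :
    Poly (fun a => wdE (q a) (l a) (r a) (s a)) := by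
  unfold wdE; fun_prop

@[fun_prop] theorem poly_wdRow {q : α → ℕ} {ds : α → List ℕ} {l : α → Ln} {r : α → ℕ}
    (hq : Poly q) (hds : Poly ds) (hl : Poly l) (hr : Poly r) :
    Poly (fun a => wdRow (q a) (ds a) (l a) (r a)) := by
  unfold wdRow; fun_prop

@[fun_prop] theorem poly_aRow {q : α → ℕ} {ds : α → List ℕ} {L : α → List Ln} {x : α → List ℕ}
    {r : α → ℕ} (hq : Poly q) (hds : Poly ds) (hL : Poly L) (hx : Poly x) (hr : Poly r) :
    Poly (fun a => aRow (q a) (ds a) (L a) (x a) (r a)) := by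
  unfold aRow; fun_prop

@[fun_prop] theorem poly_zRow {ds : α → List ℕ} (hds : Poly ds) : Poly (fun a => zRow (ds a)) := by
  unfold zRow; fun_prop

@[fun_prop] theorem poly_tRows {q : α → ℕ} {ds : α → List ℕ} {L : α → List Ln} {x : α → List ℕ}
    {τ : α → Ln × Ln × Ln} (hq : Poly q) (hds : Poly ds) (hL : Poly L) (hx : Poly x)
    (hτ : Poly τ) : Poly (fun a => tRows (q a) (ds a) (L a) (x a) (τ a)) := by
  unfold tRows; fun_prop

@[fun_prop] theorem poly_tests {L : α → List Ln} (hL : Poly L) : Poly (fun a => tests (L a)) := by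
  unfold tests; fun_prop

@[fun_prop] theorem poly_pot {q : α → ℕ} {ds : α → List ℕ} {L : α → List Ln} {x : α → List ℕ}
    (hq : Poly q) (hds : Poly ds) (hL : Poly L) (hx : Poly x) :
    Poly (fun a => pot (q a) (ds a) (L a) (x a)) := by
  unfold pot; fun_prop

@[fun_prop] theorem poly_upd {q : α → ℕ} {L : α → List Ln} {x : α → List ℕ} {l t : α → ℕ}
    (hq : Poly q) (hL : Poly L) (hx : Poly x) (hl : Poly l) (ht : Poly t) :
    Poly (fun a => upd (q a) (L a) (x a) (l a) (t a)) := by
  unfold upd; fun_prop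

@[fun_prop] theorem poly_ltb {m n : α → ℕ} (hm : Poly m) (hn : Poly n) :
    Poly (fun a => ltb (m a) (n a)) := Poly.decide_lt hm hn

@[fun_prop] theorem poly_improve {q : α → ℕ} {vs ds : α → List ℕ} {L : α → List Ln}
    {x : α → List ℕ} (hq : Poly q) (hvs : Poly vs) (hds : Poly ds) (hL : Poly L) (hx : Poly x) :
    Poly (fun a => improve (q a) (vs a) (ds a) (L a) (x a)) := by
  unfold improve; fun_prop

@[fun_prop] theorem poly_opt {q : α → ℕ} {vs ds : α → List ℕ} {L : α → List Ln}
    (hq : Poly q) (hvs : Poly vs) (hds : Poly ds) (hL : Poly L) :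
    Poly (fun a => opt (q a) (vs a) (ds a) (L a)) := by
  unfold opt
  refine poly_foldl_inv (F := fun a x _ => improve (q a) (vs a) (ds a) (L a) x) (by fun_prop)
    (by fun_prop) (by fun_prop) (fun a => sz (L a) * (2 * sz (q a) + 1) + 1)
    (((PB.sz hL).mul (((PB.const 2).mul (PB.sz hq)).add (PB.const 1))).add (PB.const 1))
    (fun a _ x => x.length ≤ (L a).length ∧ ∀ y ∈ x, y ≤ q a) (fun a => by simp) ?_ ?_
  · rintro a - x - h
    unfold improve
    cases (((List.range (L a).length) ×ˢ vs a).filter fun z => ltb (pot (q a) (ds a) (L a) x)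
        (pot (q a) (ds a) (L a) (upd (q a) (L a) x z.1 z.2))).head? with
    | none => exact h
    | some z =>
      simp only [Option.elim]
      refine ⟨by simp [upd], fun y hy => ?_⟩
      obtain ⟨j, -, rfl⟩ := List.mem_map.1 hy
      exact Nat.lt_succ_iff.1 (Nat.mod_lt _ (Nat.succ_pos _))
  · rintro a - x - h
    exact sz_small (q a) x _ (h.1.trans (length_lt_sz (L a)).le) h.2

@[fun_prop] theorem poly_nu {q : α → ℕ} {vs ds : α → List ℕ} {L : α → List Ln}
    (hq : Poly q) (hvs : Poly vs) (hds : Poly ds) (hL : Poly L) :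
    Poly (fun a => nu (q a) (vs a) (ds a) (L a)) := by
  unfold nu; fun_prop

end Poly

variable {F : Type} [Field F]

/-- A line over `F`. -/
def vl (F : Type) [Field F] (d : ℕ) (l : Ln) : (Fin d → F) × (Fin d → F) :=
  (vec F d l.1, vec F d l.2)

/-- The family of lines over `F`. -/
def fam (F : Type) [Field F] (d : ℕ) (L : List Ln) (i : Fin L.length) :
    (Fin d → F) × (Fin d → F) := vl F d (L.getD i ([], []))

theorem vl_nil (d : ℕ) : vl F d ([], []) = 0 := by
  ext j <;> simp [vl, vec]

theorem sum_map_range (f : ℕ → ℕ) (n : ℕ) :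
    ((((List.range n).map f).sum : ℕ) : F) = ∑ i : Fin n, (f i : F) := by
  induction n with
  | zero => simp
  | succ n ih =>
    rw [List.range_succ, List.map_append, List.sum_append, Fin.sum_univ_castSucc, Nat.cast_add, ih]
    simp

theorem wdE_cast (q d : ℕ) [CharP F (q + 1)] (l : Ln) (r s : Fin d) :
    ((wdE q l r s : ℕ) : F) = wdM (vl F d l) r s := by
  unfold wdE
  push_cast
  rw [cast_q q]
  simp only [wdM, vl, vec, Matrix.of_apply]
  ring

theorem vec_wdRow (q d : ℕ) [CharP F (q + 1)] (l : Ln) (r : Fin d) :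
    vec F d (wdRow q (List.range d) l r) = wdM (vl F d l) r := by
  ext s
  rw [vec, wdRow, getD_map_range _ _ _ _ s.2, wdE_cast]

theorem vec_aRow (q d : ℕ) [CharP F (q + 1)] (L : List Ln) (x : List ℕ) (r : Fin d) :
    vec F d (aRow q (List.range d) L x r) = AM (fam F d L) (vec F L.length x) r := by
  ext s
  rw [vec, aRow, getD_map_range _ _ _ _ s.2, sum_map_range, AM, Matrix.sum_apply]
  refine Finset.sum_congr rfl fun i _ => ?_
  rw [Nat.cast_mul, wdE_cast]
  rfl

theorem vec_zRow (d : ℕ) : vec F d (zRow (List.range d)) = 0 := by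
  ext s
  rw [vec, zRow, getD_map_range _ _ _ _ s.2]
  simp

theorem vec_append (d : ℕ) (u v : List ℕ) (hu : u.length = d) :
    vec F (d + d) (u ++ v) = Sum.elim (vec F d u) (vec F d v) ∘ finSumFinEquiv.symm := by
  ext j
  obtain ⟨j, rfl⟩ := finSumFinEquiv.surjective j
  rw [Function.comp_apply, Equiv.symm_apply_apply]
  rcases j with j | j
  · simp only [vec, finSumFinEquiv_apply_left, Fin.val_castAdd, Sum.elim_inl]
    rw [List.getD_append _ _ _ _ (by rw [hu]; exact j.2)]
  · simp only [vec, finSumFinEquiv_apply_right, Fin.val_natAdd, Sum.elim_inr]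
    rw [List.getD_append_right _ _ _ _ (by omega), hu, Nat.add_sub_cancel_left]

theorem rk_aRows (q d : ℕ) [CharP F (q + 1)] (L : List Ln) (x : List ℕ) :
    rk q (List.range d) ((List.range d).map fun r => aRow q (List.range d) L x r) =
      (AM (fam F d L) (vec F L.length x)).rank := by
  rw [rk_eq (F := F), Matrix.rank_eq_finrank_span_row, rowSp]
  have : {w | ∃ r ∈ (List.range d).map fun r => aRow q (List.range d) L x r, vec F d r = w} =
      Set.range (AM (fam F d L) (vec F L.length x)).row := by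
    ext w
    simp only [List.mem_map, List.mem_range, Set.mem_ofPred_eq, Set.mem_range]
    constructor
    · rintro ⟨_, ⟨r, hr, rfl⟩, rfl⟩
      exact ⟨⟨r, hr⟩, (vec_aRow q d L x ⟨r, hr⟩).symm⟩
    · rintro ⟨r, rfl⟩
      exact ⟨_, ⟨r, r.2, rfl⟩, vec_aRow q d L x r⟩
  rw [this]

theorem rk_tRows (q d : ℕ) [CharP F (q + 1)] (L : List Ln) (x : List ℕ) (τ : Ln × Ln × Ln) :
    rk q (List.range (d + d)) (tRows q (List.range d) L x τ) =
      (TM (AM (fam F d L) (vec F L.length x)) (vl F d τ.1) (vl F d τ.2.1) (vl F d τ.2.2)).rank := by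
  rw [rk_eq (F := F), ← Matrix.rank_submatrix _ (Equiv.refl _) finSumFinEquiv.symm,
    Matrix.rank_eq_finrank_span_row, rowSp]
  set A := AM (fam F d L) (vec F L.length x) with hA
  have la : ∀ r, (aRow q (List.range d) L x r).length = d := fun r => by simp [aRow]
  have lw : ∀ r, (wdRow q (List.range d) τ.1 r).length = d := fun r => by simp [wdRow]
  have lz : (zRow (List.range d)).length = d := by simp [zRow]
  have e1 : ∀ r : Fin d, vec F (d + d) (aRow q (List.range d) L x r ++ zRow (List.range d)) =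
      ((TM A (vl F d τ.1) (vl F d τ.2.1) (vl F d τ.2.2)).submatrix (Equiv.refl _)
        finSumFinEquiv.symm).row (Sum.inl r) := by
    intro r
    rw [vec_append _ _ _ (la r), vec_aRow, vec_zRow]
    rfl
  have e2 : ∀ r : Fin d, vec F (d + d) (wdRow q (List.range d) τ.1 r ++
      aRow q (List.range d) L x r) =
      ((TM A (vl F d τ.1) (vl F d τ.2.1) (vl F d τ.2.2)).submatrix (Equiv.refl _)
        finSumFinEquiv.symm).row (Sum.inr (Sum.inl r)) := by
    intro r
    rw [vec_append _ _ _ (lw r), vec_aRow, vec_wdRow]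
    rfl
  have e3 : ∀ (j : Fin 4) (v : List ℕ), vec F d v = WM (vl F d τ.2.1) (vl F d τ.2.2) j →
      vec F (d + d) (zRow (List.range d) ++ v) =
      ((TM A (vl F d τ.1) (vl F d τ.2.1) (vl F d τ.2.2)).submatrix (Equiv.refl _)
        finSumFinEquiv.symm).row (Sum.inr (Sum.inr j)) := by
    intro j v hv
    rw [vec_append _ _ _ lz, vec_zRow, hv]
    rfl
  have : {w | ∃ r ∈ tRows q (List.range d) L x τ, vec F (d + d) r = w} =
      Set.range ((TM A (vl F d τ.1) (vl F d τ.2.1) (vl F d τ.2.2)).submatrix (Equiv.refl _)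
        finSumFinEquiv.symm).row := by
    ext w
    simp only [tRows, List.mem_append, List.mem_map, List.mem_range, Set.mem_ofPred_eq,
      Set.mem_range, List.mem_cons, List.not_mem_nil, or_false]
    constructor
    · rintro ⟨_, ⟨r, hr, rfl⟩ | ⟨r, hr, rfl⟩ | rfl | rfl | rfl | rfl, rfl⟩
      · exact ⟨_, (e1 ⟨r, hr⟩).symm⟩
      · exact ⟨_, (e2 ⟨r, hr⟩).symm⟩
      · exact ⟨_, (e3 0 _ rfl).symm⟩
      · exact ⟨_, (e3 1 _ rfl).symm⟩
      · exact ⟨_, (e3 2 _ rfl).symm⟩
      · exact ⟨_, (e3 3 _ rfl).symm⟩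
    · rintro ⟨r | r | j, rfl⟩
      · exact ⟨_, Or.inl ⟨r, r.2, rfl⟩, e1 r⟩
      · exact ⟨_, Or.inr (Or.inl ⟨r, r.2, rfl⟩), e2 r⟩
      · fin_cases j
        · exact ⟨_, Or.inr (Or.inr (Or.inl rfl)), e3 0 _ rfl⟩
        · exact ⟨_, Or.inr (Or.inr (Or.inr (Or.inl rfl))), e3 1 _ rfl⟩
        · exact ⟨_, Or.inr (Or.inr (Or.inr (Or.inr (Or.inl rfl)))), e3 2 _ rfl⟩
        · exact ⟨_, Or.inr (Or.inr (Or.inr (Or.inr (Or.inr rfl)))), e3 3 _ rfl⟩
  rw [this]

/-- The tests over `F`. -/
def vtests (F : Type) [Field F] (d : ℕ) (L : List Ln) :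
    List (((Fin d → F) × (Fin d → F)) × ((Fin d → F) × (Fin d → F)) ×
      ((Fin d → F) × (Fin d → F))) :=
  (tests L).map fun τ => (vl F d τ.1, vl F d τ.2.1, vl F d τ.2.2)

theorem pot_eq (q d : ℕ) [CharP F (q + 1)] (L : List Ln) (x : List ℕ) :
    pot q (List.range d) L x = Pot (vtests F d L) (AM (fam F d L) (vec F L.length x)) := by
  unfold pot Pot vtests
  rw [List.map_map, List.length_append, List.length_range]
  congr 1
  exact List.map_congr_left fun τ _ => rk_tRows q d L x τ

theorem vec_upd (q : ℕ) [CharP F (q + 1)] (L : List Ln) (x : List ℕ) (l : Fin L.length) (t : ℕ) :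
    vec F L.length (upd q L x l t) = Function.update (vec F L.length x) l (t : F) := by
  ext i
  rw [vec, upd, getD_map_range _ _ _ _ i.2, ← CharP.cast_eq_mod F (q + 1)]
  by_cases h : i = l
  · subst h; simp
  · rw [Function.update_of_ne h, if_neg (fun hh => h (Fin.ext hh))]; rfl

theorem improve_cases (q : ℕ) (vs ds : List ℕ) (L : List Ln) (x : List ℕ) :
    (improve q vs ds L x = x ∧
      ∀ l < L.length, ∀ t ∈ vs, pot q ds L (upd q L x l t) ≤ pot q ds L x) ∨
    pot q ds L x < pot q ds L (improve q vs ds L x) := by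
  unfold improve
  cases hh : (((List.range L.length) ×ˢ vs).filter fun z => ltb (pot q ds L x)
        (pot q ds L (upd q L x z.1 z.2))).head? with
  | none =>
    left
    refine ⟨rfl, fun l hl t ht => ?_⟩
    rw [List.head?_eq_none_iff, List.filter_eq_nil_iff] at hh
    have := hh (l, t) (List.pair_mem_product.2 ⟨List.mem_range.2 hl, ht⟩)
    simpa [ltb] using this
  | some z =>
    right
    have := (List.mem_filter.1 (List.mem_of_mem_head? hh)).2
    simpa [ltb] using this

theorem foldl_improve {β : Type} (q : ℕ) (vs ds : List ℕ) (L : List Ln) (it : List β) :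
    ∀ x : List ℕ,
      (∀ l < L.length, ∀ t ∈ vs, pot q ds L (upd q L (it.foldl (fun x _ => improve q vs ds L x) x)
        l t) ≤ pot q ds L (it.foldl (fun x _ => improve q vs ds L x) x)) ∨
      pot q ds L x + it.length ≤ pot q ds L (it.foldl (fun x _ => improve q vs ds L x) x) := by
  induction it with
  | nil => intro x; right; simp
  | cons b it ih =>
    intro x
    rw [List.foldl_cons]
    rcases improve_cases q vs ds L x with ⟨h1, h2⟩ | h
    · left
      have : ∀ m : List β, m.foldl (fun x _ => improve q vs ds L x) x = x := by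
        intro m
        induction m with
        | nil => rfl
        | cons c m ihm => rw [List.foldl_cons, h1, ihm]
      rw [h1, this]
      exact h2
    · rcases ih (improve q vs ds L x) with h' | h'
      · exact Or.inl h'
      · right
        rw [List.length_cons]
        omega

theorem nu_spec (q d : ℕ) [CharP F (q + 1)] [Fintype F] (vs : List ℕ) (L : List Ln)
    (hvs : ∀ t : F, ∃ n ∈ vs, (n : F) = t)
    (hcard : ((tests L).length + 1) * (2 * d + 2) < Fintype.card F) :
    IsGreatest {n | ∃ M : Finset (Fin L.length), M.card = n ∧ Ind (fam F d L) M}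
      (nu q vs (List.range d) L) := by
  unfold nu
  rw [rk_aRows (F := F)]
  have hlen : (vtests F d L).length = (tests L).length := by simp [vtests]
  have hmem : ∀ a b c, a ∈ ([], []) :: L → b ∈ ([], []) :: L → c ∈ ([], []) :: L →
      (vl F d a, vl F d b, vl F d c) ∈ vtests F d L := fun a b c ha hb hc =>
    List.mem_map.2 ⟨(a, b, c), List.pair_mem_product.2 ⟨ha, List.pair_mem_product.2 ⟨hb, hc⟩⟩, rfl⟩
  have hz : (([], []) : Ln) ∈ ([], []) :: L := List.mem_cons_self
  have hi : ∀ i : Fin L.length, L.getD i ([], []) ∈ ([], []) :: L := fun i => by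
    rw [List.getD_eq_getElem _ _ i.2]
    exact List.mem_cons_of_mem _ (List.getElem_mem _)
  refine local_opt (fam F d L) _ (vtests F d L) (by simpa [hlen] using hcard) ?_ ?_ ?_ ?_
  · have := hmem _ _ _ hz hz hz
    rwa [vl_nil] at this
  · intro k
    have := hmem _ _ _ hz (hi k) (hi k)
    rwa [vl_nil] at this
  · intro k i j
    exact hmem _ _ _ (hi k) (hi i) (hi j)
  · intro l t
    obtain ⟨n, hn, rfl⟩ := hvs t
    rw [← vec_upd q, ← pot_eq q, ← pot_eq q]
    rcases foldl_improve q vs (List.range d) L ((tests L) ×ˢ (List.range d ++ List.range d)) []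
      with h | h
    · exact h l l.2 n hn
    · have h1 := Pot_le (vtests F d L) (AM (fam F d L)
        (vec F L.length (upd q L (opt q vs (List.range d) L) l n)))
      rw [← pot_eq q, hlen] at h1
      simp only [List.length_product, List.length_append, List.length_range,
        Fintype.card_fin] at h h1
      unfold opt at h1 ⊢
      have : (tests L).length * (d + d) = (tests L).length * (2 * d) := by ring
      omega

end Pool.Agent.H185Z.MM
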