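import Mathlib

/-!
# Matroid matching in hypergraphic matroids: definitions
-/

namespace Pool.Agent.H185Z.MM

/-- Independence in the hypergraphic matroid of the family `e` of hyperedges: every nonempty
subfamily `X` of `F` covers at least `|X| + 1` vertices. -/
def HIndep (e : ℕ → Finset ℕ) (F : Finset ℕ) : Prop :=
  ∀ X ⊆ F, X.Nonempty → X.card + 1 ≤ (X.biUnion e).card

/-- An instance: `V` lists the vertices without repetition, `E` lists the hyperedges (nonempty
subsets of `V`, numbered `0, …, |E| - 1`; repetitions allowed), and the pairs of numbers in `P`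
partition the set of numbers of hyperedges. -/
def Valid (V : List ℕ) (E : List (List ℕ)) (P : List (ℕ × ℕ)) : Prop :=
  V.Nodup ∧ (∀ e ∈ E, e ≠ [] ∧ e.Nodup ∧ e ⊆ V) ∧
    (P.flatMap fun p => [p.1, p.2]).Perm (List.range E.length)

/-- The sizes of the sets `J` of pairs whose union is independent in the hypergraphic matroid. -/
def matchingSizes (E : List (List ℕ)) (P : List (ℕ × ℕ)) : Set ℕ :=
  {n | ∃ J ⊆ P.toFinset, J.card = n ∧
    HIndep (fun k => (E.getD k []).toFinset) (J.biUnion fun p => {p.1, p.2})}

end Pool.Agent.H185Z.MM
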