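import Pool.Agent.H185Z.MM.Red
import Pool.Agent.H185Z.MM.Alg

/-!
# The algorithm for matroid matching in hypergraphic matroids
-/

namespace Pool.Agent.H185Z.MM

open Pool.Agent.NPC Finset

/-- The labels of all lines. -/
def labs (E : List (List ℕ)) (P : List (ℕ × ℕ)) : List Lab :=
  ((List.range E.length).flatMap fun k =>
    (E.getD k [] ×ˢ E.getD k []).map fun uv => Sum.inl (k, uv)) ++ P.map fun p => Sum.inr p

/-- The coordinates. -/
def co (E : List (List ℕ)) : List (ℕ ⊕ ℕ) :=
  (E.flatten.map fun w => Sum.inl w) ++ (List.range E.length).map fun k => Sum.inr k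

/-- Kronecker delta. -/
def dl (z z' : ℕ ⊕ ℕ) : ℕ := if z = z' then 1 else 0

/-- The line with a given label. -/
def toLn (q : ℕ) (c : List (ℕ ⊕ ℕ)) (l : Lab) : Ln :=
  Sum.elim (fun a => (c.map fun z => dl z (Sum.inl a.2.1) + q * dl z (Sum.inl a.2.2),
      c.map fun z => dl z (Sum.inr a.1)))
    (fun p => (c.map fun z => dl z (Sum.inr p.1), c.map fun z => dl z (Sum.inr p.2))) l

/-- A list whose length bounds the number of bad values. -/
def ubd (E : List (List ℕ)) (P : List (ℕ × ℕ)) : List (Unit × Unit) :=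
  (() :: (tests ((labs E P).map fun _ => ([], []))).map fun _ => ()) ×ˢ
    (() :: () :: (co E ++ co E).map fun _ => ())

/-- The numbers up to twice the bound. -/
def big (E : List (List ℕ)) (P : List (ℕ × ℕ)) : List ℕ :=
  List.range (((), ()) :: (ubd E P ++ ubd E P)).length

/-- Primality test by trial division. -/
def isP (b : List ℕ) (n : ℕ) : Bool := b.all fun j => ltb j 2 || !(ltb j n) || ltb 0 (n % j)

/-- A prime above the bound. -/
def prm (E : List (List ℕ)) (P : List (ℕ × ℕ)) : ℕ :=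
  (((big E P).filter fun n => ltb (ubd E P).length n && isP (big E P) n).head?).getD 0

/-- The algorithm. -/
def alg (E : List (List ℕ)) (P : List (ℕ × ℕ)) : ℕ :=
  nu (prm E P - 1) (big E P) (List.range (co E).length)
    ((labs E P).map fun l => toLn (prm E P - 1) (co E) l) - P.length

section Poly

variable {α : Type} [TEnc α]

@[fun_prop] theorem poly_labs {E : α → List (List ℕ)} {P : α → List (ℕ × ℕ)} (hE : Poly E)
    (hP : Poly P) : Poly (fun a => labs (E a) (P a)) := by
  unfold labs; fun_prop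

@[fun_prop] theorem poly_co {E : α → List (List ℕ)} (hE : Poly E) : Poly (fun a => co (E a)) := by
  unfold co; fun_prop

@[fun_prop] theorem poly_dl {z z' : α → ℕ ⊕ ℕ} (h : Poly z) (h' : Poly z') :
    Poly (fun a => dl (z a) (z' a)) := by
  unfold dl; fun_prop

@[fun_prop] theorem poly_toLn {q : α → ℕ} {c : α → List (ℕ ⊕ ℕ)} {l : α → Lab} (hq : Poly q)
    (hc : Poly c) (hl : Poly l) : Poly (fun a => toLn (q a) (c a) (l a)) := by
  unfold toLn; fun_prop

@[fun_prop] theorem poly_ubd {E : α → List (List ℕ)} {P : α → List (ℕ × ℕ)} (hE : Poly E)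
    (hP : Poly P) : Poly (fun a => ubd (E a) (P a)) := by
  unfold ubd; fun_prop

@[fun_prop] theorem poly_big {E : α → List (List ℕ)} {P : α → List (ℕ × ℕ)} (hE : Poly E)
    (hP : Poly P) : Poly (fun a => big (E a) (P a)) := by
  unfold big; fun_prop

@[fun_prop] theorem poly_isP {b : α → List ℕ} {n : α → ℕ} (hb : Poly b) (hn : Poly n) :
    Poly (fun a => isP (b a) (n a)) := by
  unfold isP; fun_prop

@[fun_prop] theorem poly_prm {E : α → List (List ℕ)} {P : α → List (ℕ × ℕ)} (hE : Poly E)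
    (hP : Poly P) : Poly (fun a => prm (E a) (P a)) := by
  unfold prm; fun_prop

theorem poly_alg {E : α → List (List ℕ)} {P : α → List (ℕ × ℕ)} (hE : Poly E)
    (hP : Poly P) : Poly (fun a => alg (E a) (P a)) := by
  unfold alg; fun_prop

end Poly

theorem ubd_length (E : List (List ℕ)) (P : List (ℕ × ℕ)) (f : Lab → Ln) :
    (ubd E P).length = ((tests ((labs E P).map f)).length + 1) * (2 * (co E).length + 2) := by
  simp only [ubd, tests, List.length_product, List.length_cons, List.length_map,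
    List.length_append]
  ring

theorem prm_spec (E : List (List ℕ)) (P : List (ℕ × ℕ)) :
    (prm E P).Prime ∧ (ubd E P).length < prm E P ∧ prm E P ≤ 2 * (ubd E P).length := by
  have hb : ∀ n, n ∈ big E P ↔ n ≤ 2 * (ubd E P).length := fun n => by
    simp only [big, List.mem_range, List.length_cons, List.length_append]; omega
  have h2 : 2 ≤ (ubd E P).length := by
    rw [ubd_length E P (fun _ => ([], []))]; nlinarith
  unfold prm
  cases hh : ((big E P).filter fun n => ltb (ubd E P).length n && isP (big E P) n).head? with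
  | none =>
    exfalso
    rw [List.head?_eq_none_iff, List.filter_eq_nil_iff] at hh
    obtain ⟨p, hp, h3, h4⟩ := Nat.exists_prime_lt_and_le_two_mul (ubd E P).length (by omega)
    apply hh p ((hb p).2 h4)
    simp only [isP, ltb, Bool.and_eq_true, decide_eq_true_eq, List.all_eq_true, Bool.or_eq_true,
      Bool.not_eq_true', decide_eq_false_iff_not]
    refine ⟨h3, fun j _ => ?_⟩
    by_contra hj
    push Not at hj
    have := (Nat.prime_def_lt'.1 hp).2 j hj.1.1 hj.1.2
    exact this (Nat.dvd_of_mod_eq_zero (by omega))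
  | some n =>
    have h := List.mem_filter.1 (List.mem_of_mem_head? hh)
    have h1 := (hb n).1 h.1
    have h3 := h.2
    simp only [isP, ltb, Bool.and_eq_true, decide_eq_true_eq, List.all_eq_true, Bool.or_eq_true,
      Bool.not_eq_true', decide_eq_false_iff_not] at h3
    refine ⟨Nat.prime_def_lt'.2 ⟨by simp only [Option.getD_some]; omega, fun j j2 jn hd => ?_⟩,
      h3.1, h1⟩
    simp only [Option.getD_some] at jn hd
    have := h3.2 j ((hb j).2 (by omega))
    have := Nat.mod_eq_zero_of_dvd hd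
    omega

variable {F : Type} [Field F]

theorem Ind.image_iff {ι I I' : Type} [Fintype ι] [DecidableEq ι] [DecidableEq I] [DecidableEq I']
    (ℓ : I' → (ι → F) × (ι → F)) (φ : I → I') (M : Finset I) (hφ : Set.InjOn φ M) :
    Ind (fun i => ℓ (φ i)) M ↔ Ind ℓ (M.image φ) := by
  classical
  constructor
  · intro h c d hcd j hj
    obtain ⟨i, hi, rfl⟩ := mem_image.1 hj
    rw [sum_image hφ] at hcd
    exact h (fun i => c (φ i)) (fun i => d (φ i)) hcd i hi
  · intro h c d hcd i hi
    have : Nonempty I := ⟨i⟩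
    have e : ∀ i ∈ M, Function.invFunOn φ M (φ i) = i := fun i hi => hφ.leftInvOn_invFunOn hi
    have := h (fun j => c (Function.invFunOn φ M j)) (fun j => d (Function.invFunOn φ M j)) (by
      rw [sum_image hφ, ← hcd]
      exact sum_congr rfl fun i hi => by rw [e i hi]) (φ i) (mem_image_of_mem _ hi)
    rwa [e i hi] at this

theorem Ind.injOn {ι I I' : Type} [Fintype ι] [DecidableEq ι] [DecidableEq I]
    (ℓ : I' → (ι → F) × (ι → F)) (φ : I → I') (M : Finset I) (h : Ind (fun i => ℓ (φ i)) M) :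
    Set.InjOn φ M := by
  intro a ha b hb hab
  by_contra hne
  have := h (fun x => if x = a then 1 else if x = b then -1 else 0) 0 (by
    rw [sum_eq_add_of_mem a b ha hb hne (fun x _ hx => by simp [hx.1, hx.2])]
    simp [Ne.symm hne, hab]) a ha
  simp at this

theorem vec_map (c : List (ℕ ⊕ ℕ)) (f : ℕ ⊕ ℕ → ℕ) (j : Fin c.length) :
    vec F c.length (c.map f) j = (f (c.get j) : F) := by
  rw [vec, List.getD_eq_getElem _ _ (by simp)]
  simp

theorem vl_toLn (q : ℕ) [CharP F (q + 1)] (c : List (ℕ ⊕ ℕ)) (l : Lab) (j : Fin c.length) :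
    (vl F c.length (toLn q c l)).1 j = g1 F l (c.get j) ∧
      (vl F c.length (toLn q c l)).2 j = g2 F l (c.get j) := by
  rcases l with a | p
  · simp only [vl, toLn, Sum.elim_inl, vec_map, g1, g2, tk, dl]
    push_cast
    rw [cast_q q]
    exact ⟨by ring, rfl⟩
  · simp only [vl, toLn, Sum.elim_inr, vec_map, g1, g2, tk, dl]
    push_cast
    exact ⟨rfl, rfl⟩

theorem ind_iff (q : ℕ) [CharP F (q + 1)] (c : List (ℕ ⊕ ℕ)) (S : Finset Lab)
    (h : ∀ l ∈ S, ∀ z ∉ c, g1 F l z = 0 ∧ g2 F l z = 0) :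
    Ind (fun l => vl F c.length (toLn q c l)) S ↔ IndF F S := by
  refine forall_congr' fun a => forall_congr' fun b => imp_congr_left ?_
  constructor
  · intro hh z
    by_cases hz : z ∈ c
    · obtain ⟨j, hj, rfl⟩ := List.getElem_of_mem hz
      have := congrFun hh ⟨j, hj⟩
      rw [Finset.sum_apply] at this
      rw [← (show (0 : Fin c.length → F) ⟨j, hj⟩ = 0 from rfl), ← this]
      refine sum_congr rfl fun l _ => ?_
      simp only [Pi.add_apply, Pi.smul_apply, smul_eq_mul, (vl_toLn q c l ⟨j, hj⟩).1,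
        (vl_toLn q c l ⟨j, hj⟩).2]
      rfl
    · exact sum_eq_zero fun l hl => by rw [(h l hl z hz).1, (h l hl z hz).2]; simp
  · intro hh
    ext j
    rw [Finset.sum_apply, Pi.zero_apply, ← hh (c.get j)]
    refine sum_congr rfl fun l _ => ?_
    simp only [Pi.add_apply, Pi.smul_apply, smul_eq_mul, (vl_toLn q c l j).1, (vl_toLn q c l j).2]

theorem inl_mem_labs {E : List (List ℕ)} {P : List (ℕ × ℕ)} {a : ℕ × ℕ × ℕ} :
    Sum.inl a ∈ labs E P ↔ a.1 < E.length ∧ a.2.1 ∈ E.getD a.1 [] ∧ a.2.2 ∈ E.getD a.1 [] := by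
  obtain ⟨k, u, v⟩ := a
  simp only [labs, List.mem_append, List.mem_flatMap, List.mem_range, List.mem_map, Sum.inl.injEq,
    Prod.mk.injEq, reduceCtorEq, and_false, exists_false, or_false]
  constructor
  · rintro ⟨k', hk, uv, h, rfl, rfl⟩
    exact ⟨hk, List.pair_mem_product.1 h⟩
  · rintro ⟨hk, h⟩
    exact ⟨k, hk, (u, v), List.pair_mem_product.2 h, rfl, rfl⟩

theorem inr_mem_labs {E : List (List ℕ)} {P : List (ℕ × ℕ)} {p : ℕ × ℕ} :
    Sum.inr p ∈ labs E P ↔ p ∈ P := by
  simp [labs]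

theorem alg_spec (E : List (List ℕ)) (P : List (ℕ × ℕ))
    (hP : (P.flatMap fun p => [p.1, p.2]).Perm (List.range E.length)) :
    IsGreatest (matchingSizes E P) (alg E P) := by
  obtain ⟨hp, hlt, hle⟩ := prm_spec E P
  unfold alg
  obtain ⟨q, hq⟩ : ∃ q, prm E P = q + 1 := ⟨prm E P - 1, by have := hp.pos; omega⟩
  rw [hq] at hp hlt hle ⊢
  rw [Nat.add_sub_cancel]
  have : Fact (q + 1).Prime := ⟨hp⟩
  set L := (labs E P).map fun l => toLn q (co E) l with hL
  have hnu := nu_spec (F := ZMod (q + 1)) q (co E).length (big E P) L (fun t =>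
    ⟨t.val, by
      have := t.val_lt
      simp only [big, List.mem_range, List.length_cons, List.length_append]; omega,
      ZMod.natCast_zmod_val t⟩) (by rw [ZMod.card, hL, ← ubd_length]; exact hlt)
  have hnd : (P.flatMap fun p => [p.1, p.2]).Nodup := hP.nodup_iff.2 List.nodup_range
  rw [List.nodup_flatMap] at hnd
  have hmem : ∀ k, k < E.length ↔ ∃ p ∈ P, k = p.1 ∨ k = p.2 := fun k => by
    rw [← List.mem_range, ← hP.mem_iff]; simp
  have p1 : ∀ p ∈ P.toFinset, p.1 ≠ p.2 := fun p hp => by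
    simpa using hnd.1 p (List.mem_toFinset.1 hp)
  have p2 : ∀ p ∈ P.toFinset, ∀ p' ∈ P.toFinset, p ≠ p' →
      Disjoint ({p.1, p.2} : Finset ℕ) {p'.1, p'.2} := by
    intro p hp p' hp' hne
    have hsy : Std.Symm (Function.onFun List.Disjoint fun p : ℕ × ℕ => [p.1, p.2]) :=
      ⟨fun a b h => List.Disjoint.symm h⟩
    have := hnd.2.forall (List.mem_toFinset.1 hp) (List.mem_toFinset.1 hp') hne
    rw [disjoint_left]
    intro k hk hk'
    exact this (a := k) (by simpa using hk) (by simpa using hk')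
  have p3 : P.toFinset.card = P.length := by
    refine List.toFinset_card_of_nodup (hnd.2.imp fun {a b} hab heq => ?_)
    subst heq
    exact hab (a := a.1) (by simp) (by simp)
  have hlen : L.length = (labs E P).length := by simp [hL]
  let φ : Fin L.length → Lab := fun i => (labs E P)[i.1]'(hlen ▸ i.2)
  have hfam : fam (ZMod (q + 1)) (co E).length L =
      fun i => vl (ZMod (q + 1)) (co E).length (toLn q (co E) (φ i)) := by
    funext i
    rw [fam, List.getD_eq_getElem _ _ i.2]
    simp [hL, φ]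
  have hvan : ∀ l ∈ labs E P, ∀ z ∉ co E,
      g1 (ZMod (q + 1)) l z = 0 ∧ g2 (ZMod (q + 1)) l z = 0 := by
    intro l hl z hz
    have t1 : ∀ k < E.length, z ≠ Sum.inr k := fun k hk hh => hz (by simp [co, hh, hk])
    rcases l with a | p
    · obtain ⟨h1, h2, h3⟩ := inl_mem_labs.1 hl
      have t2 : ∀ w ∈ E.getD a.1 [], z ≠ Sum.inl w := fun w hw hh => hz (by
        rw [List.getD_eq_getElem _ _ h1] at hw
        simp only [co, hh, List.mem_append, List.mem_map, List.mem_flatten, Sum.inl.injEq]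
        exact Or.inl ⟨w, ⟨_, List.getElem_mem h1, hw⟩, rfl⟩)
      simp [g1, g2, tk, t1 _ h1, t2 _ h2, t2 _ h3]
    · have hp' := inr_mem_labs.1 hl
      simp [g1, g2, tk, t1 _ ((hmem _).2 ⟨p, hp', Or.inl rfl⟩),
        t1 _ ((hmem _).2 ⟨p, hp', Or.inr rfl⟩)]
  rw [hfam] at hnu
  have up : ∀ n ∈ matchingSizes E P, P.length + n ≤ nu q (big E P) (List.range (co E).length) L := by
    rintro n ⟨J, hJ, rfl, hI⟩
    obtain ⟨S, s1, s2, s3, s4⟩ := red_ge (F := ZMod (q + 1)) p1 p2 hJ hI
    have hS : ∀ l ∈ S, l ∈ labs E P := by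
      rintro (a | p) hl
      · obtain ⟨⟨p, hp, h1⟩, h2, h3⟩ := s1 a hl
        exact inl_mem_labs.2 ⟨(hmem _).2 ⟨p, List.mem_toFinset.1 hp, h1⟩,
          List.mem_toFinset.1 h2, List.mem_toFinset.1 h3⟩
      · exact inr_mem_labs.2 (List.mem_toFinset.1 (s2 p hl))
    obtain ⟨M, -, hM, hMS⟩ := Finset.exists_subset_injOn_image_eq_of_surjOn (f := φ) Set.univ S
      (fun l hl => by
        obtain ⟨j, hj, rfl⟩ := List.getElem_of_mem (hS l hl)
        exact ⟨⟨j, hlen ▸ hj⟩, trivial, rfl⟩)
    refine hnu.2 ⟨M, ?_, ?_⟩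
    · rw [← card_image_of_injOn hM, hMS, s4, p3]
    · rw [Ind.image_iff (fun l => vl (ZMod (q + 1)) (co E).length (toLn q (co E) l)) φ M hM, hMS,
        ind_iff q _ _ fun l hl => hvan l (hS l hl)]
      exact s3
  obtain ⟨M, hMc, hM⟩ := hnu.1
  have hinj := Ind.injOn (fun l => vl (ZMod (q + 1)) (co E).length (toLn q (co E) l)) φ M hM
  have hS : ∀ l ∈ M.image φ, l ∈ labs E P := by
    intro l hl
    obtain ⟨i, -, rfl⟩ := mem_image.1 hl
    exact List.getElem_mem _
  rw [Ind.image_iff (fun l => vl (ZMod (q + 1)) (co E).length (toLn q (co E) l)) φ M hinj,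
    ind_iff q _ _ fun l hl => hvan l (hS l hl)] at hM
  obtain ⟨J, hJ, hI, hc⟩ := red_le (e := fun k => (E.getD k []).toFinset) (P := P.toFinset)
    (fun a ha => by
      obtain ⟨h1, h2, h3⟩ := inl_mem_labs.1 (hS _ ha)
      obtain ⟨p, hp, h4⟩ := (hmem _).1 h1
      exact ⟨⟨p, List.mem_toFinset.2 hp, h4⟩, List.mem_toFinset.2 h2, List.mem_toFinset.2 h3⟩)
    (fun p hp => List.mem_toFinset.2 (inr_mem_labs.1 (hS _ hp))) hM
  rw [card_image_of_injOn hinj, hMc, p3] at hc
  have h1 := up _ ⟨J, hJ, rfl, hI⟩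
  refine ⟨⟨J, hJ, by omega, hI⟩, fun n hn => ?_⟩
  have := up n hn
  omega

theorem exists_fun {α : Type} [TEnc α] [TDec α] {g : α → ℕ} (hg : Poly g) :
    ∃ f : List Bool → List Bool, PolyTime f ∧ ∀ a, f (bits a) = bits (g a) :=
  ⟨fun x => bits ((unbits α x).elim 0 g), polyTime_bits (Poly.optElim (h := fun _ a => g a)
    poly_unbits (NPC.Poly.const 0) (hg.comp (Poly.snd Poly.id))), fun a => by
      simp only [unbits_bits, Option.elim]⟩

theorem main : ∃ f : List Bool → List Bool, PolyTime f ∧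
    ∀ (V : List ℕ) (E : List (List ℕ)) (P : List (ℕ × ℕ)), Valid V E P →
      ∃ k : ℕ, f (bits (V, E, P)) = bits k ∧ IsGreatest (matchingSizes E P) k := by
  have h1 : Poly (fun a : List ℕ × List (List ℕ) × List (ℕ × ℕ) => alg a.2.1 a.2.2) :=
    poly_alg (Poly.fst (Poly.snd Poly.id)) (Poly.snd (Poly.snd Poly.id))
  obtain ⟨f, hf, hf'⟩ := exists_fun h1
  exact ⟨f, hf, fun V E P h => ⟨alg E P, hf' (V, E, P), alg_spec E P h.2.2⟩⟩

end Pool.Agent.H185Z.MM
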