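import Pool.Agent.H185Z.MM.Defs

/-!
# Independent sets of the hypergraphic matroid are the families with a forest of representatives
-/

namespace Pool.Agent.H185Z.MM

open Finset

variable {F : Type} [Field F]

/-- The incidence vector of the edge `u v`, at the vertex `w`. -/
def inc (F : Type) [Field F] (u v w : ℕ) : F := (if w = u then 1 else 0) - (if w = v then 1 else 0)

/-- The incidence vectors of the edges `u k, v k` for `k ∈ X` are linearly independent. -/
def Forest (F : Type) [Field F] (u v : ℕ → ℕ) (X : Finset ℕ) : Prop :=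
  ∀ c : ℕ → F, (∀ w, ∑ k ∈ X, c k * inc F (u k) (v k) w = 0) → ∀ k ∈ X, c k = 0

theorem shrink {e : ℕ → Finset ℕ} {X : Finset ℕ} (h : HIndep e X) {k0 a b c : ℕ} (hk : k0 ∈ X)
    (hc : c ∈ e k0) (hab : a ≠ b) (hac : a ≠ c) (hbc : b ≠ c) :
    HIndep (Function.update e k0 ((e k0).erase a)) X ∨
      HIndep (Function.update e k0 ((e k0).erase b)) X := by
  have key : ∀ a, ¬ HIndep (Function.update e k0 ((e k0).erase a)) X →
      ∃ Y ⊆ X, k0 ∉ Y ∧ (Y.biUnion e ∪ (e k0).erase a).card ≤ Y.card + 1 := by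
    intro a ha
    unfold HIndep at ha
    push Not at ha
    obtain ⟨Z, hZ, hne, hlt⟩ := ha
    have hb : ∀ Y : Finset ℕ, k0 ∉ Y →
        Y.biUnion (Function.update e k0 ((e k0).erase a)) = Y.biUnion e := fun Y hY =>
      Finset.biUnion_congr rfl fun k hk' => Function.update_of_ne (fun hh : k = k0 => hY (hh ▸ hk')) _ _
    by_cases hz : k0 ∈ Z
    · refine ⟨Z.erase k0, (erase_subset _ _).trans hZ, notMem_erase _ _, ?_⟩
      have e1 : Z = insert k0 (Z.erase k0) := (insert_erase hz).symm
      rw [e1, biUnion_insert, hb _ (notMem_erase _ _), Function.update_self,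
        card_insert_of_notMem (notMem_erase _ _), union_comm] at hlt
      omega
    · rw [hb Z hz] at hlt
      have := h Z hZ hne
      omega
  by_contra hh
  rw [not_or] at hh
  obtain ⟨Y1, hY1, hk1, h1⟩ := key a hh.1
  obtain ⟨Y2, hY2, hk2, h2⟩ := key b hh.2
  set A := Y1.biUnion e ∪ (e k0).erase a with hA
  set B := Y2.biUnion e ∪ (e k0).erase b with hB
  have e1 := card_union_add_card_inter A B
  have e2 := card_union_add_card_inter Y1 Y2
  have e3 : (insert k0 (Y1 ∪ Y2)).biUnion e ⊆ A ∪ B := by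
    intro w hw
    simp only [hA, hB, mem_biUnion, mem_insert, mem_union, mem_erase] at hw ⊢
    obtain ⟨k, rfl | hk' | hk', hw⟩ := hw
    · by_cases hwa : w = a
      · right; right; exact ⟨by rw [hwa]; exact hab, hw⟩
      · left; right; exact ⟨hwa, hw⟩
    · left; left; exact ⟨k, hk', hw⟩
    · right; left; exact ⟨k, hk', hw⟩
  have e4 := h (insert k0 (Y1 ∪ Y2)) (insert_subset hk (union_subset hY1 hY2)) (insert_nonempty _ _)
  rw [card_insert_of_notMem (by simp [hk1, hk2])] at e4
  have e5 := card_le_card e3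
  have e6 : (Y1 ∩ Y2).card + 1 ≤ (A ∩ B).card := by
    rcases (Y1 ∩ Y2).eq_empty_or_nonempty with h0 | h0
    · rw [h0, card_empty, zero_add, one_le_card]
      exact ⟨c, by simp [hA, hB, hc, hac.symm, hbc.symm]⟩
    · refine (h _ (inter_subset_left.trans hY1) h0).trans (card_le_card ?_)
      intro w hw
      simp only [hA, hB, mem_biUnion, mem_inter, mem_union] at hw ⊢
      obtain ⟨k, hk', hw⟩ := hw
      exact ⟨Or.inl ⟨k, hk'.1, hw⟩, Or.inl ⟨k, hk'.2, hw⟩⟩
  omega

theorem forest_of_graph {e : ℕ → Finset ℕ} {X : Finset ℕ} (h : HIndep e X)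
    (h2 : ∀ k ∈ X, (e k).card = 2) :
    ∃ u v : ℕ → ℕ, (∀ k ∈ X, u k ∈ e k ∧ v k ∈ e k) ∧ Forest F u v X := by
  classical
  have : ∀ k, ∃ u v, k ∈ X → u ≠ v ∧ e k = {u, v} := by
    intro k
    by_cases hk : k ∈ X
    · obtain ⟨u, v, huv⟩ := card_eq_two.1 (h2 k hk)
      exact ⟨u, v, fun _ => huv⟩
    · exact ⟨0, 0, fun hh => absurd hh hk⟩
  choose u v huv using this
  refine ⟨u, v, fun k hk => by rw [(huv k hk).2]; simp, fun c hc => ?_⟩
  by_contra hh
  push Not at hh
  obtain ⟨k0, hk0, hc0⟩ := hh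
  set Y := X.filter fun k => c k ≠ 0 with hY
  have h1 := h Y (filter_subset _ _) ⟨k0, mem_filter.2 ⟨hk0, hc0⟩⟩
  have h3 : (Y.biUnion e).card * 2 ≤ Y.card * 2 := by
    refine card_mul_le_card_mul (fun w k => w ∈ e k) (fun w hw => ?_) (fun k hk => ?_)
    · by_contra hlt
      obtain ⟨k, hk, hwk⟩ := mem_biUnion.1 hw
      have hk' := mem_filter.1 hk
      have huniq : ∀ k' ∈ Y, w ∈ e k' → k' = k := by
        intro k' hk'' hw'
        by_contra hne
        apply hlt
        have : ({k', k} : Finset ℕ) ⊆ Y.bipartiteAbove (fun w k => w ∈ e k) w := by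
          intro x hx
          rw [mem_bipartiteAbove]
          rcases mem_insert.1 hx with rfl | hx
          · exact ⟨hk'', hw'⟩
          · rw [mem_singleton.1 hx]; exact ⟨hk, hwk⟩
        have := card_le_card this
        rwa [card_pair hne] at this
      have h4 := hc w
      rw [sum_eq_single k] at h4
      · rw [(huv k hk'.1).2] at hwk
        have hne := (huv k hk'.1).1
        rcases mul_eq_zero.1 h4 with h5 | h5
        · exact hk'.2 h5
        · rcases mem_insert.1 hwk with h6 | h6
          · simp [inc, h6, hne] at h5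
          · rw [mem_singleton] at h6
            simp [inc, h6, hne.symm] at h5
      · intro k' hk'' hne
        by_cases h0 : c k' = 0
        · rw [h0, zero_mul]
        · have : w ∉ e k' := fun hw' => hne (huniq k' (mem_filter.2 ⟨hk'', h0⟩) hw')
          rw [(huv k' hk'').2, mem_insert, mem_singleton, not_or] at this
          simp [inc, this.1, this.2]
      · intro hn; exact absurd hk'.1 hn
    · rw [← h2 k (mem_filter.1 hk).1]
      exact card_le_card fun w hw => (mem_bipartiteBelow _).1 hw |>.2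
  omega

theorem forest_of_hindep (X : Finset ℕ) : ∀ (n : ℕ) (e : ℕ → Finset ℕ),
    ∑ k ∈ X, (e k).card = n → HIndep e X →
    ∃ u v : ℕ → ℕ, (∀ k ∈ X, u k ∈ e k ∧ v k ∈ e k) ∧ Forest F u v X := by
  intro n
  induction n using Nat.strong_induction_on with
  | _ n ih =>
    intro e hn h
    by_cases h3 : ∃ k ∈ X, 2 < (e k).card
    · obtain ⟨k0, hk0, h3⟩ := h3
      obtain ⟨a, ha, b, hb, c, hc, hab, hac, hbc⟩ := two_lt_card.1 h3
      have key : ∀ a ∈ e k0, HIndep (Function.update e k0 ((e k0).erase a)) X →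
          ∃ u v : ℕ → ℕ, (∀ k ∈ X, u k ∈ e k ∧ v k ∈ e k) ∧ Forest F u v X := by
        intro a ha h'
        have hsub : ∀ k, Function.update e k0 ((e k0).erase a) k ⊆ e k := by
          intro k
          by_cases hk : k = k0
          · subst hk; rw [Function.update_self]; exact erase_subset _ _
          · rw [Function.update_of_ne hk]
        obtain ⟨u, v, h1, h2⟩ := ih _ (by
          rw [← hn]
          refine sum_lt_sum (fun k _ => card_le_card (hsub k)) ⟨k0, hk0, ?_⟩
          rw [Function.update_self]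
          exact card_erase_lt_of_mem ha) _ rfl h'
        exact ⟨u, v, fun k hk => ⟨hsub k (h1 k hk).1, hsub k (h1 k hk).2⟩, h2⟩
      rcases shrink h hk0 hc hab hac hbc with h' | h'
      · exact key a ha h'
      · exact key b hb h'
    · push Not at h3
      refine forest_of_graph h fun k hk => le_antisymm (h3 k hk) ?_
      have := h {k} (singleton_subset_iff.2 hk) (singleton_nonempty k)
      simpa using this

theorem hindep_of_forest {e : ℕ → Finset ℕ} {X : Finset ℕ} {u v : ℕ → ℕ}
    (h1 : ∀ k ∈ X, u k ∈ e k ∧ v k ∈ e k) (h : Forest F u v X) : HIndep e X := by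
  classical
  intro Y hY hne
  set W := Y.biUnion e with hW
  have hu : ∀ k ∈ Y, u k ∈ W := fun k hk => mem_biUnion.2 ⟨k, hk, (h1 k (hY hk)).1⟩
  have hv : ∀ k ∈ Y, v k ∈ W := fun k hk => mem_biUnion.2 ⟨k, hk, (h1 k (hY hk)).2⟩
  obtain ⟨k0, hk0⟩ := hne
  -- the incidence vectors, without the coordinate `u k0`, are independent
  have hli : LinearIndependent F
      (fun k : Y => fun w : W.erase (u k0) => inc F (u k) (v k) w) := by
    rw [Fintype.linearIndependent_iff]
    intro g hg i
    let c : ℕ → F := fun k => if hk : k ∈ Y then g ⟨k, hk⟩ else 0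
    have hsum : ∀ w, ∑ k ∈ X, c k * inc F (u k) (v k) w = ∑ k : Y, g k * inc F (u k) (v k) w := by
      intro w
      rw [← sum_subset hY (fun k _ hk => by simp [c, hk]), ← sum_coe_sort]
      exact sum_congr rfl fun k _ => by simp [c]
    have z1 : ∀ w ∈ W.erase (u k0), ∑ k : Y, g k * inc F (u k) (v k) w = 0 := by
      intro w hw
      have := congrFun hg ⟨w, hw⟩
      simpa [Finset.sum_apply] using this
    have z2 : ∑ w ∈ W, ∑ k : Y, g k * inc F (u k) (v k) w = 0 := by
      rw [sum_comm]
      refine sum_eq_zero fun k _ => ?_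
      rw [← mul_sum]
      simp [inc, sum_sub_distrib, hu k k.2, hv k k.2]
    rw [← add_sum_erase _ _ (hu k0 hk0), sum_eq_zero z1, add_zero] at z2
    have := h c (fun w => by
      rw [hsum]
      by_cases hw : w ∈ W
      · by_cases hw0 : w = u k0
        · rw [hw0]; exact z2
        · exact z1 w (mem_erase.2 ⟨hw0, hw⟩)
      · refine sum_eq_zero fun k _ => ?_
        have a1 : w ≠ u k := fun hh => hw (hh ▸ hu k k.2)
        have a2 : w ≠ v k := fun hh => hw (hh ▸ hv k k.2)
        simp [inc, a1, a2]) i (hY i.2)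
    simpa [c] using this
  have h2 := hli.fintype_card_le_finrank
  rw [Module.finrank_fintype_fun_eq_card, Fintype.card_coe, Fintype.card_coe,
    card_erase_of_mem (hu k0 hk0)] at h2
  have : 0 < W.card := card_pos.2 ⟨_, hu k0 hk0⟩
  omega

end Pool.Agent.H185Z.MM
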