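import Mathlib

/-!
# Linear algebra for linear matroid parity: orthogonal complements, alternating maps
-/

namespace Pool.Agent.H185Z.MM

open Module Submodule

variable {F : Type} [Field F] {ι : Type} [Fintype ι] [DecidableEq ι]

/-- The orthogonal complement for the dot product. -/
noncomputable def perp (W : Submodule F (ι → F)) : Submodule F (ι → F) :=
  (Matrix.toBilin' (1 : Matrix ι ι F)).orthogonal W

theorem mem_perp {W : Submodule F (ι → F)} {y : ι → F} :
    y ∈ perp W ↔ ∀ w ∈ W, w ⬝ᵥ y = 0 := by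
  simp [perp, Matrix.toBilin'_apply']

theorem nondeg : (Matrix.toBilin' (1 : Matrix ι ι F)).Nondegenerate :=
  LinearMap.BilinForm.nondegenerate_toBilin'_of_det_ne_zero' _ (by simp)

theorem finrank_perp (W : Submodule F (ι → F)) :
    finrank F W + finrank F (perp W) = Fintype.card ι := by
  have h1 := LinearMap.BilinForm.finrank_orthogonal (nondeg (F := F) (ι := ι)) W
  have h2 := Submodule.finrank_le W
  rw [Module.finrank_fintype_fun_eq_card] at h1 h2
  unfold perp
  omega

theorem perp_perp (W : Submodule F (ι → F)) : perp (perp W) = W :=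
  LinearMap.BilinForm.orthogonal_orthogonal nondeg (fun x y h => by
    simp only [Matrix.toBilin'_apply', Matrix.one_mulVec] at h ⊢
    rw [dotProduct_comm]; exact h) W

theorem perp_anti {W W' : Submodule F (ι → F)} (h : W ≤ W') : perp W' ≤ perp W :=
  fun _ hy => mem_perp.2 fun w hw => mem_perp.1 hy w (h hw)

theorem perp_sup (W W' : Submodule F (ι → F)) : perp (W ⊔ W') = perp W ⊓ perp W' := by
  apply le_antisymm
  · exact le_inf (perp_anti le_sup_left) (perp_anti le_sup_right)
  · intro y hy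
    rw [mem_perp]
    intro w hw
    obtain ⟨a, ha, b, hb, rfl⟩ := Submodule.mem_sup.1 hw
    rw [add_dotProduct, mem_perp.1 hy.1 a ha, mem_perp.1 hy.2 b hb, add_zero]

theorem perp_inf (W W' : Submodule F (ι → F)) : perp (W ⊓ W') = perp W ⊔ perp W' := by
  have h := perp_sup (perp W) (perp W')
  rw [perp_perp, perp_perp] at h
  rw [← h, perp_perp]

theorem le_perp_comm {W W' : Submodule F (ι → F)} (h : W ≤ perp W') : W' ≤ perp W :=
  fun y hy => mem_perp.2 fun w hw => by rw [dotProduct_comm]; exact mem_perp.1 (h hw) y hy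

theorem perp_top : perp (⊤ : Submodule F (ι → F)) = ⊥ := by
  have h := finrank_perp (⊤ : Submodule F (ι → F))
  rw [finrank_top, Module.finrank_fintype_fun_eq_card] at h
  exact Submodule.finrank_eq_zero.1 (by omega)

omit [DecidableEq ι] in
/-- rank-nullity on a subspace -/
theorem finrank_map_add (A : (ι → F) →ₗ[F] (ι → F)) (U : Submodule F (ι → F)) :
    finrank F (U.map A) + finrank F (U ⊓ LinearMap.ker A : Submodule F (ι → F)) = finrank F U := by
  have h := LinearMap.finrank_range_add_finrank_ker (A.domRestrict U)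
  rw [LinearMap.range_domRestrict] at h
  have h2 : finrank F (LinearMap.ker (A.domRestrict U)) =
      finrank F (U ⊓ LinearMap.ker A : Submodule F (ι → F)) := by
    rw [LinearMap.ker_domRestrict, ← Submodule.finrank_map_subtype_eq, Submodule.map_comap_subtype]
  omega

/-- Alternating maps. -/
def Skew (A : (ι → F) →ₗ[F] (ι → F)) : Prop := ∀ y, A y ⬝ᵥ y = 0

omit [DecidableEq ι] in
theorem Skew.swap {A : (ι → F) →ₗ[F] (ι → F)} (h : Skew A) (y z : ι → F) :
    A y ⬝ᵥ z = -(A z ⬝ᵥ y) := by
  have h1 := h (y + z)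
  rw [map_add, add_dotProduct, dotProduct_add, dotProduct_add, h y, h z] at h1
  linear_combination h1

theorem Skew.range_eq {A : (ι → F) →ₗ[F] (ι → F)} (h : Skew A) :
    LinearMap.range A = perp (LinearMap.ker A) := by
  apply Submodule.eq_of_le_of_finrank_le
  · rintro _ ⟨y, rfl⟩
    rw [mem_perp]
    intro n hn
    rw [dotProduct_comm, h.swap, LinearMap.mem_ker.1 hn]
    simp
  · have h1 := finrank_perp (LinearMap.ker A)
    have h2 := LinearMap.finrank_range_add_finrank_ker A
    rw [Module.finrank_fintype_fun_eq_card] at h2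
    omega

/-- The radical of the form of `A` restricted to `U`. -/
noncomputable def rad (A : (ι → F) →ₗ[F] (ι → F)) (U : Submodule F (ι → F)) :
    Submodule F (ι → F) := U ⊓ (perp U).comap A

theorem mem_rad {A : (ι → F) →ₗ[F] (ι → F)} {U : Submodule F (ι → F)} {y : ι → F} :
    y ∈ rad A U ↔ y ∈ U ∧ ∀ w ∈ U, w ⬝ᵥ A y = 0 := by
  simp [rad, mem_perp]

theorem rad_le (A : (ι → F) →ₗ[F] (ι → F)) (U : Submodule F (ι → F)) : rad A U ≤ U := inf_le_left

/-- The span of the two points of a line. -/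
def sp (l : (ι → F) × (ι → F)) : Submodule F (ι → F) := span F {l.1, l.2}

omit [Fintype ι] [DecidableEq ι] in
theorem mem_sp {l : (ι → F) × (ι → F)} {w : ι → F} : w ∈ sp l ↔ ∃ s t : F, s • l.1 + t • l.2 = w :=
  Submodule.mem_span_pair

omit [Fintype ι] [DecidableEq ι] in
theorem fst_mem_sp (l : (ι → F) × (ι → F)) : l.1 ∈ sp l := mem_sp.2 ⟨1, 0, by simp⟩

omit [Fintype ι] [DecidableEq ι] in
theorem snd_mem_sp (l : (ι → F) × (ι → F)) : l.2 ∈ sp l := mem_sp.2 ⟨0, 1, by simp⟩

theorem mem_perp_sp {l : (ι → F) × (ι → F)} {y : ι → F} :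
    y ∈ perp (sp l) ↔ l.1 ⬝ᵥ y = 0 ∧ l.2 ⬝ᵥ y = 0 := by
  rw [mem_perp]
  constructor
  · intro h
    exact ⟨h _ (fst_mem_sp l), h _ (snd_mem_sp l)⟩
  · rintro ⟨h1, h2⟩ w hw
    obtain ⟨s, t, rfl⟩ := mem_sp.1 hw
    simp [add_dotProduct, h1, h2]

/-- Two functionals on a subspace: either they are dual to two vectors, or their common kernel has
codimension at most one. -/
theorem two_fun (K : Submodule F (ι → F)) (l : (ι → F) × (ι → F)) :
    (finrank F K ≤ finrank F (K ⊓ perp (sp l) : Submodule F (ι → F)) + 1 ∨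
      ∃ k1 ∈ K, ∃ k2 ∈ K, l.1 ⬝ᵥ k1 = 1 ∧ l.2 ⬝ᵥ k1 = 0 ∧ l.1 ⬝ᵥ k2 = 0 ∧ l.2 ⬝ᵥ k2 = 1) ∧
    finrank F K ≤ finrank F (K ⊓ perp (sp l) : Submodule F (ι → F)) + 2 := by
  let φ : (ι → F) →ₗ[F] F × F :=
    { toFun := fun y => (l.1 ⬝ᵥ y, l.2 ⬝ᵥ y)
      map_add' := fun y z => by simp [dotProduct_add]
      map_smul' := fun c y => by simp [dotProduct_smul] }
  have h := LinearMap.finrank_range_add_finrank_ker (φ.domRestrict K)
  have h2 : finrank F (LinearMap.ker (φ.domRestrict K)) =
      finrank F (K ⊓ perp (sp l) : Submodule F (ι → F)) := by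
    rw [LinearMap.ker_domRestrict, ← Submodule.finrank_map_subtype_eq, Submodule.map_comap_subtype]
    have : LinearMap.ker φ = perp (sp l) := by
      ext y
      rw [mem_perp_sp, LinearMap.mem_ker]
      simp [φ]
    rw [this]
  have h3 : finrank F (F × F) = 2 := by simp
  have h4 := Submodule.finrank_le (LinearMap.range (φ.domRestrict K))
  refine ⟨?_, by omega⟩
  by_cases ht : LinearMap.range (φ.domRestrict K) = ⊤
  · right
    obtain ⟨k1, hk1⟩ : (1, 0) ∈ LinearMap.range (φ.domRestrict K) := by rw [ht]; trivial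
    obtain ⟨k2, hk2⟩ : (0, 1) ∈ LinearMap.range (φ.domRestrict K) := by rw [ht]; trivial
    simp only [LinearMap.domRestrict_apply, LinearMap.coe_mk, AddHom.coe_mk, Prod.mk.injEq,
      φ] at hk1 hk2
    exact ⟨k1, k1.2, k2, k2.2, hk1.1, hk1.2, hk2.1, hk2.2⟩
  · left
    have := Submodule.finrank_lt ht
    omega

/-- The rank of an alternating form is even. -/
theorem Skew.even {A : (ι → F) →ₗ[F] (ι → F)} (hA : Skew A) :
    ∀ (n : ℕ) (U : Submodule F (ι → F)), finrank F U = n →
      ∃ m, finrank F U = finrank F (rad A U) + 2 * m := by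
  intro n
  induction n using Nat.strong_induction_on with
  | _ n ih =>
    intro U hU
    by_cases h : U ≤ rad A U
    · exact ⟨0, by rw [le_antisymm (rad_le A U) h]; simp⟩
    · obtain ⟨y, hyU, hy⟩ := SetLike.not_le_iff_exists.1 h
      rw [mem_rad] at hy
      push Not at hy
      obtain ⟨w, hwU, hw⟩ := hy hyU
      set U' := U ⊓ perp (sp (A y, A w)) with hU'
      have hwy : A w ⬝ᵥ y = -(w ⬝ᵥ A y) := by rw [hA.swap, dotProduct_comm]
      have hyw : A y ⬝ᵥ w = w ⬝ᵥ A y := dotProduct_comm _ _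
      -- decomposition of elements of `U`
      have hdec : ∀ u ∈ U, ∃ s t : F, u - s • y - t • w ∈ U' := by
        intro u hu
        refine ⟨-(A w ⬝ᵥ u) / (w ⬝ᵥ A y), (A y ⬝ᵥ u) / (w ⬝ᵥ A y), ?_, ?_⟩
        · exact U.sub_mem (U.sub_mem hu (U.smul_mem _ hyU)) (U.smul_mem _ hwU)
        · change _ ∈ perp (sp (A y, A w))
          rw [mem_perp_sp]
          simp only [dotProduct_sub, dotProduct_smul, smul_eq_mul, hA y, hA w, hwy, hyw]
          constructor <;> field_simp <;> ring
      have hrad : rad A U' = rad A U := by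
        apply le_antisymm
        · intro z hz
          rw [mem_rad] at hz ⊢
          refine ⟨hz.1.1, fun u hu => ?_⟩
          obtain ⟨s, t, hst⟩ := hdec u hu
          have h1 := hz.2 _ hst
          have h2 := mem_perp_sp.1 hz.1.2
          simp only at h2
          have h3 : y ⬝ᵥ A z = 0 := by rw [dotProduct_comm, hA.swap, h2.1]; simp
          have h4 : w ⬝ᵥ A z = 0 := by rw [dotProduct_comm, hA.swap, h2.2]; simp
          simpa [sub_dotProduct, h3, h4] using h1
        · intro z hz
          rw [mem_rad] at hz ⊢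
          refine ⟨⟨hz.1, ?_⟩, fun u hu => hz.2 u hu.1⟩
          change _ ∈ perp (sp (A y, A w))
          rw [mem_perp_sp]
          simp only
          rw [hA.swap y z, hA.swap w z, dotProduct_comm, hz.2 y hyU, dotProduct_comm, hz.2 w hwU]
          simp
      have hle : finrank F U ≤ finrank F U' + 2 := (two_fun U (A y, A w)).2
      have hge : finrank F U' + 2 ≤ finrank F U := by
        have hy' : y ∉ U' := fun hh => by
          have := (mem_perp_sp.1 hh.2).2
          simp only [hwy, neg_eq_zero] at this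
          exact hw this
        have hw' : w ∉ U' ⊔ span F {y} := fun hh => by
          obtain ⟨a, ha, b, hb, hab⟩ := Submodule.mem_sup.1 hh
          obtain ⟨c, rfl⟩ := Submodule.mem_span_singleton.1 hb
          have h1 := (mem_perp_sp.1 ha.2).1
          simp only at h1
          apply hw
          rw [← hyw, ← hab, dotProduct_add, h1, dotProduct_smul, hA y]
          simp
        have e1 : U' < U' ⊔ span F {y} := lt_of_le_of_ne le_sup_left fun hh =>
          hy' (by rw [hh]; exact Submodule.mem_sup_right (Submodule.mem_span_singleton_self y))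
        have e2 : U' ⊔ span F {y} < U := by
          refine lt_of_le_of_ne (sup_le inf_le_left ?_) fun hh => hw' (by rw [hh]; exact hwU)
          rw [Submodule.span_singleton_le_iff_mem]; exact hyU
        have := Submodule.finrank_lt_finrank_of_lt e1
        have := Submodule.finrank_lt_finrank_of_lt e2
        omega
      obtain ⟨m, hm⟩ := ih (finrank F U') (by omega) U' rfl
      rw [hrad] at hm
      exact ⟨m + 1, by omega⟩

/-- The alternating map of a line. -/
def wd (l : (ι → F) × (ι → F)) : (ι → F) →ₗ[F] (ι → F) where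
  toFun y := (l.2 ⬝ᵥ y) • l.1 - (l.1 ⬝ᵥ y) • l.2
  map_add' y z := by simp only [dotProduct_add, add_smul]; abel
  map_smul' c y := by simp only [dotProduct_smul, smul_eq_mul, RingHom.id_apply, smul_sub, mul_smul]

omit [DecidableEq ι] in
theorem wd_apply (l : (ι → F) × (ι → F)) (y : ι → F) :
    wd l y = (l.2 ⬝ᵥ y) • l.1 - (l.1 ⬝ᵥ y) • l.2 := rfl

omit [DecidableEq ι] in
theorem wd_dot (l : (ι → F) × (ι → F)) (y z : ι → F) :
    wd l y ⬝ᵥ z = (l.2 ⬝ᵥ y) * (l.1 ⬝ᵥ z) - (l.1 ⬝ᵥ y) * (l.2 ⬝ᵥ z) := by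
  rw [wd_apply, sub_dotProduct, smul_dotProduct, smul_dotProduct]; rfl

omit [DecidableEq ι] in
theorem wd_skew (l : (ι → F) × (ι → F)) : Skew (wd l) := fun y => by rw [wd_dot]; ring

omit [DecidableEq ι] in
theorem wd_mem_sp (l : (ι → F) × (ι → F)) (y : ι → F) : wd l y ∈ sp l :=
  mem_sp.2 ⟨l.2 ⬝ᵥ y, -(l.1 ⬝ᵥ y), by rw [wd_apply, neg_smul, sub_eq_add_neg]⟩

theorem wd_eq_zero {l : (ι → F) × (ι → F)} {y : ι → F} (h : y ∈ perp (sp l)) : wd l y = 0 := by
  rw [mem_perp_sp] at h
  rw [wd_apply, h.1, h.2]; simp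

variable {I : Type} [DecidableEq I]

/-- The alternating map of a weighted family of lines. -/
noncomputable def Aop (ℓ : I → (ι → F) × (ι → F)) (x : I → F) (T : Finset I) :
    (ι → F) →ₗ[F] (ι → F) := ∑ i ∈ T, x i • wd (ℓ i)

omit [DecidableEq ι] [DecidableEq I] in
theorem Aop_apply (ℓ : I → (ι → F) × (ι → F)) (x : I → F) (T : Finset I) (y : ι → F) :
    Aop ℓ x T y = ∑ i ∈ T, x i • wd (ℓ i) y := by
  simp [Aop, LinearMap.sum_apply]

omit [DecidableEq ι] [DecidableEq I] in
theorem Aop_skew (ℓ : I → (ι → F) × (ι → F)) (x : I → F) (T : Finset I) : Skew (Aop ℓ x T) := by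
  intro y
  rw [Aop_apply, sum_dotProduct]
  exact Finset.sum_eq_zero fun i _ => by rw [smul_dotProduct, wd_skew]; simp

/-- The points of the lines in `M` are linearly independent modulo the annihilator of `U`. -/
def IndMod (ℓ : I → (ι → F) × (ι → F)) (U : Submodule F (ι → F)) (M : Finset I) : Prop :=
  ∀ c d : I → F, ∑ i ∈ M, (c i • (ℓ i).1 + d i • (ℓ i).2) ∈ perp U → ∀ i ∈ M, c i = 0 ∧ d i = 0

/-- The points of the lines in `M` are linearly independent: `M` is a matching. -/
def Ind (ℓ : I → (ι → F) × (ι → F)) (M : Finset I) : Prop :=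
  ∀ c d : I → F, ∑ i ∈ M, (c i • (ℓ i).1 + d i • (ℓ i).2) = 0 → ∀ i ∈ M, c i = 0 ∧ d i = 0

theorem lower_aux (ℓ : I → (ι → F) × (ι → F)) (x : I → F) (T : Finset I) :
    ∀ U : Submodule F (ι → F), ∃ M ⊆ T, IndMod ℓ U M ∧
      finrank F U ≤ finrank F (rad (Aop ℓ x T) U) + 2 * M.card := by
  induction T using Finset.induction_on with
  | empty =>
    intro U
    refine ⟨∅, le_rfl, fun c d _ i hi => by simp at hi, ?_⟩
    have : U ≤ rad (Aop ℓ x ∅) U := fun y hy => mem_rad.2 ⟨hy, fun w _ => by simp [Aop_apply]⟩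
    have := Submodule.finrank_mono this
    simpa using this
  | insert i T hi ih =>
    intro U
    have hA : ∀ y, Aop ℓ x (insert i T) y = x i • wd (ℓ i) y + Aop ℓ x T y := by
      intro y; rw [Aop_apply, Aop_apply, Finset.sum_insert hi]
    rcases (two_fun (rad (Aop ℓ x T) U) (ℓ i)).1 with h | ⟨k1, hk1, k2, hk2, e1, e2, e3, e4⟩
    · obtain ⟨M, hM, hI, hle⟩ := ih U
      refine ⟨M, hM.trans (Finset.subset_insert _ _), hI, ?_⟩
      have h1 : rad (Aop ℓ x T) U ⊓ perp (sp (ℓ i)) ≤ rad (Aop ℓ x (insert i T)) U := by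
        intro y hy
        have h2 := mem_rad.1 hy.1
        refine mem_rad.2 ⟨h2.1, fun w hw => ?_⟩
        rw [hA, wd_eq_zero hy.2, smul_zero, zero_add, h2.2 w hw]
      have h2 := Submodule.finrank_mono h1
      obtain ⟨m, hm⟩ := (Aop_skew ℓ x (insert i T)).even _ U rfl
      omega
    · obtain ⟨M, hM, hI, hle⟩ := ih (U ⊓ perp (sp (ℓ i)))
      have hiM : i ∉ M := fun h => hi (hM h)
      refine ⟨insert i M, Finset.insert_subset_insert _ hM, ?_, ?_⟩
      · intro c d hcd
        rw [Finset.sum_insert hiM] at hcd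
        have h1 : ∑ j ∈ M, (c j • (ℓ j).1 + d j • (ℓ j).2) ∈ perp (U ⊓ perp (sp (ℓ i))) := by
          rw [mem_perp]
          intro w hw
          have h2 := mem_perp.1 hcd w hw.1
          have h3 := mem_perp_sp.1 hw.2
          rw [dotProduct_add, dotProduct_add, dotProduct_smul, dotProduct_smul,
            dotProduct_comm w, dotProduct_comm w (ℓ i).2, h3.1, h3.2] at h2
          simpa using h2
        have h2 := hI c d h1
        have h3 : ∑ j ∈ M, (c j • (ℓ j).1 + d j • (ℓ j).2) = 0 :=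
          Finset.sum_eq_zero fun j hj => by rw [(h2 j hj).1, (h2 j hj).2]; simp
        rw [h3, add_zero] at hcd
        have h4 := mem_perp.1 hcd k1 (rad_le _ _ hk1)
        have h5 := mem_perp.1 hcd k2 (rad_le _ _ hk2)
        rw [dotProduct_add, dotProduct_smul, dotProduct_smul, dotProduct_comm,
          dotProduct_comm _ (ℓ i).2] at h4 h5
        simp only [e1, e2, e3, e4, smul_eq_mul, mul_one, mul_zero, add_zero, zero_add] at h4 h5
        intro j hj
        rcases Finset.mem_insert.1 hj with rfl | hj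
        · exact ⟨h4, h5⟩
        · exact h2 j hj
      · have h1 : rad (Aop ℓ x T) (U ⊓ perp (sp (ℓ i))) ≤ rad (Aop ℓ x (insert i T)) U := by
          intro y hy
          have h2 := mem_rad.1 hy
          refine mem_rad.2 ⟨h2.1.1, fun w hw => ?_⟩
          rw [hA, wd_eq_zero h2.1.2, smul_zero, zero_add]
          have h3 : w - ((ℓ i).1 ⬝ᵥ w) • k1 - ((ℓ i).2 ⬝ᵥ w) • k2 ∈ U ⊓ perp (sp (ℓ i)) := by
            refine ⟨U.sub_mem (U.sub_mem hw (U.smul_mem _ (rad_le _ _ hk1)))
              (U.smul_mem _ (rad_le _ _ hk2)), ?_⟩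
            change _ ∈ perp (sp (ℓ i))
            rw [mem_perp_sp]
            simp [dotProduct_sub, dotProduct_smul, e1, e2, e3, e4]
          have h4 := h2.2 _ h3
          have h5 : k1 ⬝ᵥ Aop ℓ x T y = 0 := by
            rw [dotProduct_comm, (Aop_skew ℓ x T).swap, dotProduct_comm,
              (mem_rad.1 hk1).2 y h2.1.1]; simp
          have h6 : k2 ⬝ᵥ Aop ℓ x T y = 0 := by
            rw [dotProduct_comm, (Aop_skew ℓ x T).swap, dotProduct_comm,
              (mem_rad.1 hk2).2 y h2.1.1]; simp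
          simpa [sub_dotProduct, h5, h6] using h4
        have h2 := Submodule.finrank_mono h1
        have h3 := (two_fun U (ℓ i)).2
        rw [Finset.card_insert_of_notMem hiM]
        omega

/-- Every evaluation has rank at most twice the size of a maximum matching. -/
theorem lower (ℓ : I → (ι → F) × (ι → F)) (x : I → F) (T : Finset I) :
    ∃ M ⊆ T, Ind ℓ M ∧ finrank F (LinearMap.range (Aop ℓ x T)) ≤ 2 * M.card := by
  obtain ⟨M, hM, hI, hle⟩ := lower_aux ℓ x T ⊤
  refine ⟨M, hM, fun c d h => hI c d (by rw [h]; exact zero_mem _), ?_⟩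
  have h1 : rad (Aop ℓ x T) ⊤ = LinearMap.ker (Aop ℓ x T) := by
    rw [rad, perp_top]; simp
  rw [h1, finrank_top] at hle
  have h2 := LinearMap.finrank_range_add_finrank_ker (Aop ℓ x T)
  omega

end Pool.Agent.H185Z.MM
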