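import Pool.Agent.H671R2.PolyAuto
import Pool.Agent.NPC.Dec

/-!
# Gaussian elimination modulo a prime, in polynomial time
-/

namespace Pool.Agent.H185Z.MM

open Pool.Agent.NPC Module Submodule

/-- One row operation modulo `q + 1`. -/
def elimRow (q : ℕ) (cs : List ℕ) (c : ℕ) (r s : List ℕ) : List ℕ :=
  cs.map fun j => (r.getD c 0 * s.getD j 0 + q * (s.getD c 0 * r.getD j 0)) % (q + 1)

/-- Clearing one column. -/
def gstep (q : ℕ) (cs : List ℕ) (st : List (List ℕ) × ℕ) (c : ℕ) : List (List ℕ) × ℕ :=
  ((st.1.filter fun r => decide (0 < r.getD c 0 % (q + 1))).head?).elim st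
    (fun r => (st.1.map (fun s => elimRow q cs c r s), st.2 + 1))

/-- The rank modulo `q + 1` of a list of rows, with columns `cs`. -/
def rk (q : ℕ) (cs : List ℕ) (rows : List (List ℕ)) : ℕ := (cs.foldl (gstep q cs) (rows, 0)).2

section Poly

variable {α β σ : Type} [TEnc α] [TEnc β] [TEnc σ]

attribute [fun_prop] Poly.range_length

/-- Polynomially bounded functions. -/
def PB (f : α → ℕ) : Prop := ∃ p : Polynomial ℕ, ∀ a, f a ≤ p.eval (sz a)

theorem PB.const (n : ℕ) : PB (fun _ : α => n) := ⟨Polynomial.C n, fun _ => by simp⟩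

theorem PB.add {f g : α → ℕ} (hf : PB f) (hg : PB g) : PB (fun a => f a + g a) := by
  obtain ⟨p, hp⟩ := hf
  obtain ⟨q, hq⟩ := hg
  exact ⟨p + q, fun a => by rw [Polynomial.eval_add]; exact Nat.add_le_add (hp a) (hq a)⟩

theorem PB.mul {f g : α → ℕ} (hf : PB f) (hg : PB g) : PB (fun a => f a * g a) := by
  obtain ⟨p, hp⟩ := hf
  obtain ⟨q, hq⟩ := hg
  exact ⟨p * q, fun a => by rw [Polynomial.eval_mul]; exact Nat.mul_le_mul (hp a) (hq a)⟩

theorem PB.sz {f : α → β} (hf : Poly f) : PB (fun a => sz (f a)) := hf.sz_le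

theorem poly_foldl_inv {l : α → List β} {s : α → σ} {F : α → σ → β → σ} (hl : Poly l) (hs : Poly s)
    (hF : Poly (fun p : α × σ × β => F p.1 p.2.1 p.2.2)) (B : α → ℕ) (hB : PB B)
    (Inv : α → ℕ → σ → Prop) (h0 : ∀ a, Inv a 0 (s a))
    (hstep : ∀ a k st b, Inv a k st → Inv a (k + 1) (F a st b))
    (hsz : ∀ a k st, k ≤ (l a).length → Inv a k st → sz st ≤ B a) :
    Poly (fun a => (l a).foldl (F a) (s a)) := by
  obtain ⟨p, hp⟩ := hB
  refine Poly.foldl hl hs hF p fun a k hk => (hsz a k _ hk ?_).trans (hp a)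
  have key : ∀ (m : List β) (j : ℕ) (st : σ), Inv a j st →
      Inv a (j + m.length) (m.foldl (F a) st) := by
    intro m
    induction m with
    | nil => intro j st h; simpa using h
    | cons b m ih =>
      intro j st h
      have := ih (j + 1) _ (hstep a j st b h)
      rw [List.length_cons, List.foldl_cons]
      convert this using 1
      omega
  have := key ((l a).take k) 0 _ (h0 a)
  rwa [zero_add, List.length_take, min_eq_left hk] at this

theorem sz_small (q : ℕ) (v : List ℕ) (n : ℕ) (h1 : v.length ≤ n) (h2 : ∀ x ∈ v, x ≤ q) :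
    sz v ≤ n * (2 * sz q + 1) + 1 :=
  (sz_le_length_mul v (2 * sz q) fun x hx => sz_nat_mono_le (h2 x hx)).trans
    (Nat.add_le_add_right (Nat.mul_le_mul_right _ h1) 1)

@[fun_prop] theorem poly_elimRow {q : α → ℕ} {cs : α → List ℕ} {c : α → ℕ} {r s : α → List ℕ}
    (hq : Poly q) (hcs : Poly cs) (hc : Poly c) (hr : Poly r) (hs : Poly s) :
    Poly (fun a => elimRow (q a) (cs a) (c a) (r a) (s a)) := by
  unfold elimRow; fun_prop

@[fun_prop] theorem poly_gstep {q : α → ℕ} {cs : α → List ℕ} {st : α → List (List ℕ) × ℕ}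
    {c : α → ℕ} (hq : Poly q) (hcs : Poly cs) (hst : Poly st) (hc : Poly c) :
    Poly (fun a => gstep (q a) (cs a) (st a) (c a)) := by
  unfold gstep; fun_prop

@[fun_prop] theorem poly_rk {q : α → ℕ} {cs : α → List ℕ} {rows : α → List (List ℕ)}
    (hq : Poly q) (hcs : Poly cs) (hrows : Poly rows) :
    Poly (fun a => rk (q a) (cs a) (rows a)) := by
  unfold rk
  refine Poly.snd (poly_foldl_inv (F := fun a => gstep (q a) (cs a)) hcs (by fun_prop)
    (by fun_prop)
    (fun a => sz (rows a) + (sz (rows a) * (sz (cs a) * (2 * sz (q a) + 1) + 1 + 1) + 1) +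
      (4 * sz (cs a) + 2))
    (((PB.sz hrows).add (((PB.sz hrows).mul ((((PB.sz hcs).mul (((PB.const 2).mul
      (PB.sz hq)).add (PB.const 1))).add (PB.const 1)).add (PB.const 1))).add (PB.const 1))).add
      (((PB.const 4).mul (PB.sz hcs)).add (PB.const 2)))
    (fun a k st => st.2 ≤ k ∧ (st.1 = rows a ∨ (st.1.length = (rows a).length ∧
      ∀ r ∈ st.1, r.length = (cs a).length ∧ ∀ x ∈ r, x ≤ q a))) (fun a => by simp) ?_ ?_)
  · rintro a k st c ⟨h1, h2⟩
    unfold gstep
    cases (st.1.filter fun r => decide (0 < r.getD c 0 % (q a + 1))).head? with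
    | none => exact ⟨by simp only [Option.elim]; omega, h2⟩
    | some r =>
      simp only [Option.elim]
      refine ⟨by omega, Or.inr ⟨?_, ?_⟩⟩
      · rcases h2 with h2 | h2
        · rw [List.length_map, h2]
        · rw [List.length_map, h2.1]
      · intro r' hr'
        obtain ⟨s, -, rfl⟩ := List.mem_map.1 hr'
        refine ⟨by simp [elimRow], fun x hx => ?_⟩
        obtain ⟨j, -, rfl⟩ := List.mem_map.1 hx
        exact Nat.lt_succ_iff.1 (Nat.mod_lt _ (Nat.succ_pos _))
  · rintro a k ⟨R, n⟩ hk ⟨h1, h2⟩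
    simp only at h1 h2
    rw [sz_pair]
    have e1 := sz_nat_le n
    have e2 := Poly.size_le_self n
    have e3 := length_lt_sz (cs a)
    have e4 := length_lt_sz (rows a)
    rcases h2 with rfl | ⟨h2, h3⟩
    · omega
    · have e5 := sz_le_length_mul R (sz (cs a) * (2 * sz (q a) + 1) + 1) fun r hr =>
        sz_small (q a) r _ (by rw [(h3 r hr).1]; omega) (h3 r hr).2
      have e6 : R.length * (sz (cs a) * (2 * sz (q a) + 1) + 1 + 1) ≤
          sz (rows a) * (sz (cs a) * (2 * sz (q a) + 1) + 1 + 1) :=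
        Nat.mul_le_mul_right _ (by omega)
      omega

end Poly

/-- A list of numbers as a vector over `F`. -/
def vec (F : Type) [Field F] (D : ℕ) (v : List ℕ) : Fin D → F := fun j => (v.getD j 0 : ℕ)

/-- The row space. -/
def rowSp (F : Type) [Field F] (D : ℕ) (rows : List (List ℕ)) : Submodule F (Fin D → F) :=
  span _ {w | ∃ r ∈ rows, vec F D r = w}

variable {F : Type} [Field F]

theorem cast_q (q : ℕ) [CharP F (q + 1)] : ((q : ℕ) : F) = -1 := by
  have : ((q + 1 : ℕ) : F) = 0 := CharP.cast_eq_zero F _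
  push_cast at this
  linear_combination this

theorem getD_map_range {β : Type} (D : ℕ) (f : ℕ → β) (d : β) (j : ℕ) (hj : j < D) :
    ((List.range D).map f).getD j d = f j := by
  rw [List.getD_eq_getElem _ _ (by simpa using hj)]
  simp

theorem elimRow_cast (q D c : ℕ) [CharP F (q + 1)] (r s : List ℕ) (j : ℕ) (hj : j < D) :
    (((elimRow q (List.range D) c r s).getD j 0 : ℕ) : F) =
      (r.getD c 0 : ℕ) * (s.getD j 0 : ℕ) - (s.getD c 0 : ℕ) * (r.getD j 0 : ℕ) := by
  rw [elimRow, getD_map_range _ _ _ _ hj, ← CharP.cast_eq_mod F (q + 1)]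
  push_cast
  rw [cast_q q]
  ring

theorem vec_elimRow (q D c : ℕ) [CharP F (q + 1)] (r s : List ℕ) :
    vec F D (elimRow q (List.range D) c r s) =
      ((r.getD c 0 : ℕ) : F) • vec F D s - ((s.getD c 0 : ℕ) : F) • vec F D r := by
  ext j
  simp only [vec, Pi.sub_apply, Pi.smul_apply, smul_eq_mul]
  exact elimRow_cast q D c r s j j.2

theorem rk_inv (q D : ℕ) [CharP F (q + 1)] (rows : List (List ℕ)) :
    ∀ k ≤ D, ((List.range k).foldl (gstep q (List.range D)) (rows, 0)).2 +
      finrank F (rowSp F D ((List.range k).foldl (gstep q (List.range D)) (rows, 0)).1)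
        = finrank F (rowSp F D rows) ∧
      ∀ r ∈ ((List.range k).foldl (gstep q (List.range D)) (rows, 0)).1, ∀ j < k,
        ((r.getD j 0 : ℕ) : F) = 0 := by
  intro k
  induction k with
  | zero => intro _; exact ⟨zero_add _, fun r _ j hj => absurd hj (Nat.not_lt_zero _)⟩
  | succ k ih =>
    intro hk
    obtain ⟨h1, h2⟩ := ih (by omega)
    rw [List.range_succ, List.foldl_append, List.foldl_cons, List.foldl_nil]
    set st := (List.range k).foldl (gstep q (List.range D)) (rows, 0) with hst
    unfold gstep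
    cases hh : (st.1.filter fun r => decide (0 < r.getD k 0 % (q + 1))).head? with
    | none =>
      simp only [Option.elim]
      refine ⟨h1, fun r hr j hj => ?_⟩
      rcases Nat.lt_succ_iff_lt_or_eq.1 hj with hj | rfl
      · exact h2 r hr j hj
      · rw [List.head?_eq_none_iff, List.filter_eq_nil_iff] at hh
        have := hh r hr
        rw [CharP.cast_eq_zero_iff F (q + 1), Nat.dvd_iff_mod_eq_zero]
        simpa using this
    | some r =>
      simp only [Option.elim]
      have hr := List.mem_filter.1 (List.mem_of_mem_head? hh)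
      have hr0 : ((r.getD k 0 : ℕ) : F) ≠ 0 := by
        rw [Ne, CharP.cast_eq_zero_iff F (q + 1), Nat.dvd_iff_mod_eq_zero]
        have := hr.2
        simp only [decide_eq_true_eq] at this
        omega
      have hz : ∀ r' ∈ st.1.map (fun s => elimRow q (List.range D) k r s), ∀ j < k + 1,
          ((r'.getD j 0 : ℕ) : F) = 0 := by
        intro r' hr' j hj
        obtain ⟨s, hs, rfl⟩ := List.mem_map.1 hr'
        rw [elimRow_cast _ _ _ _ _ _ (by omega)]
        rcases Nat.lt_succ_iff_lt_or_eq.1 hj with hj | rfl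
        · rw [h2 s hs j hj, h2 r hr.1 j hj]; ring
        · ring
      refine ⟨?_, hz⟩
      set R' := st.1.map (fun s => elimRow q (List.range D) k r s) with hR'
      have e1 : rowSp F D st.1 = rowSp F D R' ⊔ span _ {vec F D r} := by
        apply le_antisymm
        · refine span_le.2 ?_
          rintro _ ⟨s, hs, rfl⟩
          have : vec F D s = ((r.getD k 0 : ℕ) : F)⁻¹ •
              (vec F D (elimRow q (List.range D) k r s) +
                ((s.getD k 0 : ℕ) : F) • vec F D r) := by
            rw [vec_elimRow, sub_add_cancel, smul_smul, inv_mul_cancel₀ hr0, one_smul]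
          rw [this]
          refine smul_mem _ _ (add_mem (mem_sup_left (subset_span ⟨_, ?_, rfl⟩))
            (mem_sup_right (smul_mem _ _ (mem_span_singleton_self _))))
          exact List.mem_map_of_mem hs
        · refine sup_le (span_le.2 ?_) (span_le.2 ?_)
          · rintro _ ⟨r', hr', rfl⟩
            obtain ⟨s, hs, rfl⟩ := List.mem_map.1 hr'
            rw [vec_elimRow]
            exact sub_mem (smul_mem _ _ (subset_span ⟨s, hs, rfl⟩))
              (smul_mem _ _ (subset_span ⟨r, hr.1, rfl⟩))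
          · rintro _ rfl
            exact subset_span ⟨r, hr.1, rfl⟩
      have e2 : vec F D r ∉ rowSp F D R' := by
        intro hmem
        have : rowSp F D R' ≤ LinearMap.ker (LinearMap.proj (R := F)
            (φ := fun _ : Fin D => F) ⟨k, by omega⟩) := by
          refine span_le.2 ?_
          rintro _ ⟨r', hr', rfl⟩
          exact hz r' hr' k (by omega)
        exact hr0 (this hmem)
      have e3 := Submodule.finrank_sup_add_finrank_inf_eq (rowSp F D R') (span _ {vec F D r})
      have e0 : vec F D r ≠ 0 := fun h => e2 (by rw [h]; exact zero_mem _)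
      have e4 : rowSp F D R' ⊓ span _ {vec F D r} = ⊥ :=
        ((Submodule.disjoint_span_singleton' e0).2 e2).eq_bot
      have e5 := finrank_span_singleton (K := F) e0
      rw [e4, finrank_bot, ← e1, e5] at e3
      change st.2 + 1 + finrank F (rowSp F D R') = _
      omega

theorem rk_eq (q D : ℕ) [CharP F (q + 1)] (rows : List (List ℕ)) :
    rk q (List.range D) rows = finrank F (rowSp F D rows) := by
  obtain ⟨h1, h2⟩ := rk_inv (F := F) q D rows D le_rfl
  have : rowSp F D ((List.range D).foldl (gstep q (List.range D)) (rows, 0)).1 = ⊥ := by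
    rw [rowSp, span_eq_bot]
    rintro _ ⟨r, hr, rfl⟩
    ext j
    exact h2 r hr j j.2
  rw [this, finrank_bot] at h1
  exact h1

end Pool.Agent.H185Z.MM
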