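import Pool.Agent.H185Z.MM.Hyp

/-!
# The token gadget: hypergraphic matroid matching reduces to graphic matroid matching
-/

namespace Pool.Agent.H185Z.MM

open Finset

/-- Labels of lines: (hyperedge, two of its vertices), or a pair of hyperedges. -/
abbrev Lab : Type := (ℕ × ℕ × ℕ) ⊕ (ℕ × ℕ)

variable {F : Type} [Field F]

/-- The token of hyperedge `k`. -/
def tk (F : Type) [Field F] (k : ℕ) (z : ℕ ⊕ ℕ) : F := if z = Sum.inr k then 1 else 0

/-- First point of a line. -/
def g1 (F : Type) [Field F] : Lab → ℕ ⊕ ℕ → F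
  | Sum.inl a, z => (if z = Sum.inl a.2.1 then 1 else 0) - (if z = Sum.inl a.2.2 then 1 else 0)
  | Sum.inr p, z => tk F p.1 z

/-- Second point of a line. -/
def g2 (F : Type) [Field F] : Lab → ℕ ⊕ ℕ → F
  | Sum.inl a, z => tk F a.1 z
  | Sum.inr p, z => tk F p.2 z

/-- Matchings of labelled lines. -/
def IndF (F : Type) [Field F] (S : Finset Lab) : Prop :=
  ∀ c d : Lab → F, (∀ z, ∑ l ∈ S, (c l * g1 F l z + d l * g2 F l z) = 0) →
    ∀ l ∈ S, c l = 0 ∧ d l = 0

theorem card_union_pairs {P : Finset (ℕ × ℕ)} (h1 : ∀ p ∈ P, p.1 ≠ p.2)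
    (h2 : ∀ p ∈ P, ∀ p' ∈ P, p ≠ p' → Disjoint ({p.1, p.2} : Finset ℕ) {p'.1, p'.2}) :
    (P.biUnion fun p => ({p.1, p.2} : Finset ℕ)).card = 2 * P.card := by
  rw [card_biUnion fun p hp p' hp' hne => h2 p hp p' hp' hne, sum_congr rfl fun p hp =>
    card_pair (h1 p hp)]
  simp [mul_comm]

theorem red_ge {e : ℕ → Finset ℕ} {P J : Finset (ℕ × ℕ)} (h1 : ∀ p ∈ P, p.1 ≠ p.2)
    (h2 : ∀ p ∈ P, ∀ p' ∈ P, p ≠ p' → Disjoint ({p.1, p.2} : Finset ℕ) {p'.1, p'.2})
    (hJ : J ⊆ P) (h : HIndep e (J.biUnion fun p => {p.1, p.2})) :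
    ∃ S : Finset Lab, (∀ a, Sum.inl a ∈ S → (∃ p ∈ P, a.1 = p.1 ∨ a.1 = p.2) ∧
      a.2.1 ∈ e a.1 ∧ a.2.2 ∈ e a.1) ∧ (∀ p, Sum.inr p ∈ S → p ∈ P) ∧ IndF F S ∧
      S.card = P.card + J.card := by
  obtain ⟨u, v, huv, hf⟩ := forest_of_hindep (F := F) _ _ e rfl h
  set U := J.biUnion fun p => ({p.1, p.2} : Finset ℕ) with hU
  set S1 : Finset Lab := U.image fun k => Sum.inl (k, u k, v k) with hS1
  set S2 : Finset Lab := (P \ J).image Sum.inr with hS2
  have hd : Disjoint S1 S2 := by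
    rw [disjoint_left]
    intro l hl hl'
    obtain ⟨k, -, rfl⟩ := mem_image.1 hl
    obtain ⟨p, -, hp⟩ := mem_image.1 hl'
    cases hp
  have i1 : Set.InjOn (fun k => (Sum.inl (k, u k, v k) : Lab)) U := fun a _ b _ hab => by
    simpa using (Prod.ext_iff.1 (Sum.inl.inj hab)).1
  have i2 : Set.InjOn (Sum.inr : ℕ × ℕ → Lab) (P \ J : Finset (ℕ × ℕ)) :=
    fun a _ b _ hab => Sum.inr.inj hab
  have hUP : ∀ k ∈ U, ∀ p ∈ P \ J, k ≠ p.1 ∧ k ≠ p.2 := by
    intro k hk p hp
    obtain ⟨p', hp', hk'⟩ := mem_biUnion.1 hk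
    have := disjoint_left.1 (h2 p' (hJ hp') p (mem_sdiff.1 hp).1
      (fun hh => (mem_sdiff.1 hp).2 (hh ▸ hp'))) hk'
    simpa [not_or] using this
  refine ⟨S1 ∪ S2, ?_, ?_, ?_, ?_⟩
  · intro a ha
    rcases mem_union.1 ha with ha | ha
    · obtain ⟨k, hk, hka⟩ := mem_image.1 ha
      obtain rfl := Sum.inl.inj hka
      obtain ⟨p, hp, hk'⟩ := mem_biUnion.1 hk
      exact ⟨⟨p, hJ hp, by simpa using hk'⟩, huv k hk⟩
    · obtain ⟨p, -, hp⟩ := mem_image.1 ha
      cases hp
  · intro p hp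
    rcases mem_union.1 hp with ha | ha
    · obtain ⟨k, -, hka⟩ := mem_image.1 ha
      cases hka
    · obtain ⟨p', hp', hp⟩ := mem_image.1 ha
      obtain rfl := Sum.inr.inj hp
      exact (mem_sdiff.1 hp').1
  · intro c d hcd
    simp only [sum_union hd] at hcd
    simp only [hS1, hS2, sum_image i1, sum_image i2, g1, g2] at hcd
    have a1 := hf (fun k => c (Sum.inl (k, u k, v k))) (fun w => by
      have := hcd (Sum.inl w)
      simpa [tk, inc] using this)
    intro l hl
    rcases mem_union.1 hl with hl | hl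
    · obtain ⟨k, hk, rfl⟩ := mem_image.1 hl
      refine ⟨a1 k hk, ?_⟩
      have := hcd (Sum.inr k)
      rw [sum_eq_single k (fun k' _ hne => by simp [tk, hne.symm]) (fun hh => absurd hk hh),
        sum_eq_zero (fun p hp => by simp [tk, (hUP k hk p hp).1, (hUP k hk p hp).2])] at this
      simpa [tk] using this
    · obtain ⟨p, hp, rfl⟩ := mem_image.1 hl
      have hne := h1 p (mem_sdiff.1 hp).1
      have hdis : ∀ p' ∈ P \ J, p' ≠ p →
          (p.1 ≠ p'.1 ∧ p.1 ≠ p'.2) ∧ (p.2 ≠ p'.1 ∧ p.2 ≠ p'.2) := by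
        intro p' hp' hne'
        have := h2 p' (mem_sdiff.1 hp').1 p (mem_sdiff.1 hp).1 hne'
        simpa [not_or] using this
      have b1 := hcd (Sum.inr p.1)
      have b2 := hcd (Sum.inr p.2)
      rw [sum_eq_zero (fun k hk => by simp [tk, (hUP k hk p hp).1.symm]),
        sum_eq_single p (fun p' hp' hne' => by
          simp [tk, (hdis p' hp' hne').1.1, (hdis p' hp' hne').1.2])
          (fun hh => absurd hp hh)] at b1
      rw [sum_eq_zero (fun k hk => by simp [tk, (hUP k hk p hp).2.symm]),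
        sum_eq_single p (fun p' hp' hne' => by
          simp [tk, (hdis p' hp' hne').2.1, (hdis p' hp' hne').2.2])
          (fun hh => absurd hp hh)] at b2
      constructor
      · simpa [tk, hne] using b1
      · simpa [tk, hne.symm] using b2
  · rw [card_union_of_disjoint hd, card_image_of_injOn i1, card_image_of_injOn i2,
      card_union_pairs (fun p hp => h1 p (hJ hp)) (fun p hp p' hp' => h2 p (hJ hp) p' (hJ hp')),
      card_sdiff_of_subset hJ]
    have := card_le_card hJ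
    omega

theorem IndF.two {S : Finset Lab} (h : IndF F S) {l l' : Lab} (hl : l ∈ S) (hl' : l' ∈ S)
    (hne : l ≠ l') : g2 F l ≠ g2 F l' ∧ g2 F l ≠ g1 F l' := by
  constructor
  · intro hh
    have := h 0 (fun x => if x = l then 1 else if x = l' then -1 else 0) (fun z => by
      rw [sum_eq_add_of_mem l l' hl hl' hne (fun x _ hx => by simp [hx.1, hx.2])]
      simp [hne.symm, hh]) l hl
    simp at this
  · intro hh
    have := h (fun x => if x = l' then -1 else 0) (fun x => if x = l then 1 else 0) (fun z => by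
      rw [sum_eq_add_of_mem l l' hl hl' hne (fun x _ hx => by simp [hx.1, hx.2])]
      simp [hne.symm, hne, hh]) l hl
    simp at this

theorem red_le {e : ℕ → Finset ℕ} {P : Finset (ℕ × ℕ)} {S : Finset Lab}
    (h1 : ∀ a, Sum.inl a ∈ S → (∃ p ∈ P, a.1 = p.1 ∨ a.1 = p.2) ∧ a.2.1 ∈ e a.1 ∧ a.2.2 ∈ e a.1)
    (h2 : ∀ p, Sum.inr p ∈ S → p ∈ P) (h : IndF F S) :
    ∃ J ⊆ P, HIndep e (J.biUnion fun p => {p.1, p.2}) ∧ S.card ≤ P.card + J.card := by
  classical
  set K := S.toLeft.image Prod.fst with hK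
  have hinj : Set.InjOn Prod.fst (S.toLeft : Set (ℕ × ℕ × ℕ)) := by
    intro a ha b hb hab
    by_contra hne
    have := (h.two (mem_toLeft.1 ha) (mem_toLeft.1 hb) (fun hh => hne (Sum.inl.inj hh))).1
    apply this
    funext z
    simp only [g2, hab]
  have : ∀ k, ∃ uv : ℕ × ℕ, k ∈ K → (k, uv) ∈ S.toLeft := by
    intro k
    by_cases hk : k ∈ K
    · obtain ⟨a, ha, rfl⟩ := mem_image.1 hk
      exact ⟨a.2, fun _ => ha⟩
    · exact ⟨(0, 0), fun hh => absurd hh hk⟩
  choose uv huv using this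
  have hKI : HIndep e K := by
    refine hindep_of_forest (F := F) (u := fun k => (uv k).1) (v := fun k => (uv k).2)
      (fun k hk => (h1 _ (mem_toLeft.1 (huv k hk))).2) fun c hc k hk => ?_
    have := h (Sum.elim (fun a => c a.1) 0) 0 (fun z => by
      rw [← S.toLeft_disjSum_toRight, sum_disjSum]
      simp only [Sum.elim_inl, Sum.elim_inr, Pi.zero_apply, zero_mul, add_zero, sum_const_zero]
      rcases z with w | w
      · rw [← hc w, hK, sum_image hinj]
        refine sum_congr rfl fun a ha => ?_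
        have : (a.1, uv a.1) = a := hinj (huv a.1 (mem_image_of_mem _ ha)) ha rfl
        have e2 : uv a.1 = a.2 := (Prod.ext_iff.1 this).2
        simp [g1, inc, e2]
      · simp [g1]) _ (mem_toLeft.1 (huv k hk))
    exact this.1
  set J1 := P.filter fun p => p.1 ∈ K with hJ1
  set J2 := P.filter fun p => p.2 ∈ K with hJ2
  refine ⟨J1 ∩ J2, inter_subset_left.trans (filter_subset _ _), fun X hX => hKI X (hX.trans ?_), ?_⟩
  · intro k hk
    obtain ⟨p, hp, hk⟩ := mem_biUnion.1 hk
    rw [mem_inter] at hp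
    rcases mem_insert.1 hk with rfl | hk
    · exact (mem_filter.1 hp.1).2
    · rw [mem_singleton.1 hk]; exact (mem_filter.1 hp.2).2
  · have e1 : S.toLeft.card + S.toRight.card = S.card := card_toLeft_add_card_toRight
    have e2 : K.card = S.toLeft.card := card_image_of_injOn hinj
    have e3 : K ⊆ J1.image Prod.fst ∪ J2.image Prod.snd := by
      intro k hk
      obtain ⟨p, hp, hp'⟩ := (h1 _ (mem_toLeft.1 (huv k hk))).1
      rcases hp' with hp' | hp'
      · exact mem_union_left _ (mem_image.2 ⟨p, mem_filter.2 ⟨hp, hp' ▸ hk⟩, hp'.symm⟩)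
      · exact mem_union_right _ (mem_image.2 ⟨p, mem_filter.2 ⟨hp, hp' ▸ hk⟩, hp'.symm⟩)
    have e4 := (card_le_card e3).trans ((card_union_le _ _).trans
      (Nat.add_le_add card_image_le card_image_le))
    have e5 := card_union_add_card_inter J1 J2
    have e6 : Disjoint (J1 ∪ J2) S.toRight := by
      rw [disjoint_left]
      intro p hp hp'
      rcases mem_union.1 hp with hp | hp
      · have := (h.two (mem_toLeft.1 (huv _ (mem_filter.1 hp).2)) (mem_toRight.1 hp')
          (by simp)).2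
        exact this (funext fun z => rfl)
      · have := (h.two (mem_toLeft.1 (huv _ (mem_filter.1 hp).2)) (mem_toRight.1 hp')
          (by simp)).1
        exact this (funext fun z => rfl)
    have e7 : (J1 ∪ J2) ∪ S.toRight ⊆ P :=
      union_subset (union_subset (filter_subset _ _) (filter_subset _ _))
        fun p hp => h2 p (mem_toRight.1 hp)
    have e8 := card_le_card e7
    rw [card_union_of_disjoint e6] at e8
    omega

end Pool.Agent.H185Z.MM
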