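import Pool.Agent.H185Z.MM.Lin

/-!
# First-order optimality conditions imply maximum rank
-/

namespace Pool.Agent.H185Z.MM

open Module Submodule

variable {F : Type} [Field F] {ι : Type} [Fintype ι] [DecidableEq ι]

/-- The first-order condition for the test `(κ, W₁, W₂)` in the direction `l`. -/
def FO (A : (ι → F) →ₗ[F] (ι → F)) (κ W1 W2 l : (ι → F) × (ι → F)) : Prop :=
  ∀ n y u v : ι → F, A n = 0 → A y + wd κ n = 0 → y ∈ perp (sp W1 ⊔ sp W2) →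
    A v ∈ sp W1 ⊔ sp W2 → A u + wd κ v = 0 → wd l n ⬝ᵥ u + wd l y ⬝ᵥ v = 0

/-- Part of the span of two lines in the image. -/
def H2 (A : (ι → F) →ₗ[F] (ι → F)) (l l' : (ι → F) × (ι → F)) : Submodule F (ι → F) :=
  (sp l ⊔ sp l') ⊓ LinearMap.range A

/-- Orthogonality for the form induced on the image. -/
def Orth (A : (ι → F) →ₗ[F] (ι → F)) (P Q : Submodule F (ι → F)) : Prop :=
  P ≤ perp (Q.comap A)

theorem Orth.dot {A : (ι → F) →ₗ[F] (ι → F)} {P Q : Submodule F (ι → F)} (h : Orth A P Q)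
    {p v : ι → F} (hp : p ∈ P) (hv : A v ∈ Q) : p ⬝ᵥ v = 0 := by
  rw [dotProduct_comm]; exact mem_perp.1 (h hp) v hv

theorem orth_of_dot {A : (ι → F) →ₗ[F] (ι → F)} {P Q : Submodule F (ι → F)}
    (h : ∀ p ∈ P, ∀ v, A v ∈ Q → p ⬝ᵥ v = 0) : Orth A P Q :=
  fun p hp => mem_perp.2 fun v hv => by rw [dotProduct_comm]; exact h p hp v hv

theorem Orth.symm {A : (ι → F) →ₗ[F] (ι → F)} (hA : Skew A) {P Q : Submodule F (ι → F)}
    (h : Orth A P Q) (hQ : Q ≤ LinearMap.range A) : Orth A Q P := by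
  refine orth_of_dot fun q hq v hv => ?_
  obtain ⟨y, rfl⟩ := hQ hq
  rw [hA.swap, h.dot hv hq, neg_zero]

omit [DecidableEq ι] in
theorem H2_le (A : (ι → F) →ₗ[F] (ι → F)) (l l' : (ι → F) × (ι → F)) :
    H2 A l l' ≤ LinearMap.range A := inf_le_right

omit [DecidableEq ι] in
theorem mem_H {A : (ι → F) →ₗ[F] (ι → F)} {l : (ι → F) × (ι → F)} {w : ι → F} :
    w ∈ H2 A l l ↔ w ∈ sp l ∧ w ∈ LinearMap.range A := by
  simp [H2]

theorem Skew.mem_range {A : (ι → F) →ₗ[F] (ι → F)} (hA : Skew A) {w : ι → F} :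
    w ∈ LinearMap.range A ↔ ∀ n, A n = 0 → w ⬝ᵥ n = 0 := by
  rw [hA.range_eq, mem_perp]
  exact ⟨fun h n hn => by rw [dotProduct_comm]; exact h n hn,
    fun h n hn => by rw [dotProduct_comm]; exact h n hn⟩

theorem mult {l : (ι → F) × (ι → F)} {n h : ι → F} (hn : n ∉ perp (sp l)) (hh : h ∈ sp l)
    (h0 : h ⬝ᵥ n = 0) : ∃ c : F, h = c • wd l n := by
  obtain ⟨s, t, rfl⟩ := mem_sp.1 hh
  rw [mem_perp_sp] at hn
  rw [add_dotProduct, smul_dotProduct, smul_dotProduct, smul_eq_mul, smul_eq_mul] at h0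
  by_cases h2 : l.2 ⬝ᵥ n = 0
  · have h1 : l.1 ⬝ᵥ n ≠ 0 := fun h => hn ⟨h, h2⟩
    have hs : s = 0 := by
      rw [h2, mul_zero, add_zero] at h0
      exact (mul_eq_zero.1 h0).resolve_right h1
    refine ⟨-t / (l.1 ⬝ᵥ n), ?_⟩
    rw [wd_apply, h2, hs, smul_sub, smul_smul, smul_smul, div_mul_cancel₀ _ h1]
    simp
  · refine ⟨s / (l.2 ⬝ᵥ n), ?_⟩
    have ht : t = -(s / (l.2 ⬝ᵥ n) * (l.1 ⬝ᵥ n)) := by field_simp; linear_combination h0
    rw [wd_apply, smul_sub, smul_smul, smul_smul, div_mul_cancel₀ _ h2, ht, neg_smul,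
      sub_eq_add_neg]

theorem perp_of_wd {l : (ι → F) × (ι → F)} {y z : ι → F} (hy : wd l y = 0) (hz : wd l z ≠ 0) :
    y ∈ perp (sp l) := by
  by_contra hn
  apply hz
  obtain ⟨c, hc⟩ := mult hn (wd_mem_sp l z) (by rw [(wd_skew l).swap, hy]; simp)
  rw [hc, hy, smul_zero]

variable {I : Type}

/-- The first-order conditions that are used. -/
structure Loc (ℓ : I → (ι → F) × (ι → F)) (A : (ι → F) →ₗ[F] (ι → F)) : Prop where
  skew : Skew A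
  h0 : ∀ l, FO A 0 0 0 (ℓ l)
  h1 : ∀ k l, FO A 0 (ℓ k) (ℓ k) (ℓ l)
  h2 : ∀ k i j l, FO A (ℓ k) (ℓ i) (ℓ j) (ℓ l)

/-- Adjacent lines. -/
def adj (ℓ : I → (ι → F) × (ι → F)) (A : (ι → F) →ₗ[F] (ι → F)) (i j : I) : Prop :=
  ¬ Orth A (H2 A (ℓ i) (ℓ i)) (H2 A (ℓ j) (ℓ j))

omit [DecidableEq ι] in
theorem wd_zero (y : ι → F) : wd (0 : (ι → F) × (ι → F)) y = 0 := by simp [wd_apply]

namespace Loc

variable {ℓ : I → (ι → F) × (ι → F)} {A : (ι → F) →ₗ[F] (ι → F)}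

theorem adj_symm (h : Loc ℓ A) {i j : I} (hij : adj ℓ A i j) : adj ℓ A j i :=
  fun hh => hij (hh.symm h.skew (H2_le _ _ _))

theorem wd_mem (h : Loc ℓ A) (l : I) {n : ι → F} (hn : A n = 0) :
    wd (ℓ l) n ∈ H2 A (ℓ l) (ℓ l) := by
  refine mem_H.2 ⟨wd_mem_sp _ _, h.skew.mem_range.2 fun u hu => ?_⟩
  have := h.h0 l n 0 u 0 hn (by simp [wd_zero]) (zero_mem _) (by simp) (by simp [wd_zero, hu])
  simpa using this

theorem par (h : Loc ℓ A) {k l : I} (hkl : adj ℓ A k l) {y : ι → F} (hy : A y = 0)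
    (hk : y ∈ perp (sp (ℓ k))) : y ∈ perp (sp (ℓ l)) := by
  by_contra hl
  apply h.adj_symm hkl
  refine orth_of_dot fun p hp v hv => ?_
  obtain ⟨c, rfl⟩ := mult hl (mem_H.1 hp).1 (h.skew.mem_range.1 (mem_H.1 hp).2 y hy)
  have := h.h1 k l 0 y 0 v (by simp) (by simp [wd_zero, hy]) (by simpa using hk)
    (by simpa using (mem_H.1 hv).1) (by simp [wd_zero])
  simp only [map_zero, zero_dotProduct, zero_add] at this
  rw [smul_dotProduct, this, smul_zero]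

theorem par' (h : Loc ℓ A) {k l : I} (hkl : adj ℓ A k l) :
    sp (ℓ l) ≤ LinearMap.range A ⊔ sp (ℓ k) := by
  rw [← perp_perp (LinearMap.range A ⊔ sp (ℓ k)), perp_sup, h.skew.range_eq, perp_perp]
  exact le_perp_comm fun y hy => h.par hkl hy.1 hy.2

theorem keyX (h : Loc ℓ A) {k l i j : I} (hkl : adj ℓ A k l)
    (hk : Orth A (H2 A (ℓ k) (ℓ k)) (H2 A (ℓ i) (ℓ j)))
    (hl : Orth A (H2 A (ℓ l) (ℓ l)) (H2 A (ℓ i) (ℓ j))) :
    Orth A (H2 A (ℓ k) (ℓ l)) (H2 A (ℓ i) (ℓ j)) := by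
  refine orth_of_dot fun w hw v hv => ?_
  by_cases ht : sp (ℓ k) ≤ LinearMap.range A
  · have ht' : sp (ℓ l) ≤ LinearMap.range A := (h.par' hkl).trans (sup_le le_rfl ht)
    obtain ⟨a, ha, b, hb, rfl⟩ := Submodule.mem_sup.1 hw.1
    rw [add_dotProduct, hk.dot (mem_H.2 ⟨ha, ht ha⟩) hv, hl.dot (mem_H.2 ⟨hb, ht' hb⟩) hv,
      add_zero]
  · obtain ⟨n0, hn0, hn0k⟩ : ∃ n0, A n0 = 0 ∧ n0 ∉ perp (sp (ℓ k)) := by
      by_contra hh
      push Not at hh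
      apply ht
      rw [h.skew.range_eq]
      exact le_perp_comm fun y hy => hh y hy
    have hn0l : n0 ∉ perp (sp (ℓ l)) := fun hh => hn0k (h.par (h.adj_symm hkl) hn0 hh)
    obtain ⟨y0, hy0⟩ := (mem_H.1 (h.wd_mem k hn0)).2
    -- the two special points are not orthogonal
    have hne : wd (ℓ l) n0 ⬝ᵥ y0 ≠ 0 := by
      intro h0
      apply h.adj_symm hkl
      refine orth_of_dot fun p hp v' hv' => ?_
      obtain ⟨c, rfl⟩ := mult hn0l (mem_H.1 hp).1 (h.skew.mem_range.1 (mem_H.1 hp).2 n0 hn0)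
      obtain ⟨c', hc'⟩ := mult hn0k (mem_H.1 hv').1 (h.skew.mem_range.1 (mem_H.1 hv').2 n0 hn0)
      have h1 : A (v' - c' • y0) = 0 := by rw [map_sub, map_smul, hy0, hc', sub_self]
      have h2 := h.skew.mem_range.1 (mem_H.1 (h.wd_mem l hn0)).2 _ h1
      rw [dotProduct_sub, dotProduct_smul, h0, smul_zero, sub_zero] at h2
      rw [smul_dotProduct, h2, smul_zero]
    -- move `y0` into the annihilator of the test lines
    have hy0' : y0 ∈ perp (sp (ℓ i) ⊔ sp (ℓ j)) ⊔ LinearMap.ker A := by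
      rw [← perp_perp (LinearMap.ker A), ← h.skew.range_eq, ← perp_inf, mem_perp]
      intro g hg
      exact (hk.symm h.skew (H2_le _ _ _)).dot hg (by rw [hy0]; exact h.wd_mem k hn0)
    obtain ⟨y1, hy1, n1, hn1, rfl⟩ := Submodule.mem_sup.1 hy0'
    rw [LinearMap.mem_ker] at hn1
    rw [map_add, hn1, add_zero] at hy0
    rw [dotProduct_add, h.skew.mem_range.1 (mem_H.1 (h.wd_mem l hn0)).2 n1 hn1, add_zero] at hne
    have e0 : wd (ℓ k) v ⬝ᵥ n0 = 0 := by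
      rw [(wd_skew _).swap, hk.dot (h.wd_mem k hn0) hv, neg_zero]
    have e1 : wd (ℓ l) v ⬝ᵥ n0 = 0 := by
      rw [(wd_skew _).swap, hl.dot (h.wd_mem l hn0) hv, neg_zero]
    obtain ⟨c0, hc0⟩ := mult hn0k (wd_mem_sp _ v) e0
    obtain ⟨c1, hc1⟩ := mult hn0l (wd_mem_sp _ v) e1
    have key := h.h2 k i j l n0 (-y1) (-(c0 • y1)) v hn0 (by rw [map_neg, hy0, neg_add_cancel])
      (neg_mem hy1) hv.1 (by rw [map_neg, map_smul, hy0, hc0, neg_add_cancel])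
    rw [(wd_skew _).swap (-y1) v, hc1] at key
    simp only [dotProduct_neg, dotProduct_smul, smul_dotProduct, smul_eq_mul] at key
    have hc : c0 = c1 := by
      have : (c1 - c0) * (wd (ℓ l) n0 ⬝ᵥ y1) = 0 := by linear_combination key
      have := (mul_eq_zero.1 this).resolve_right hne
      linear_combination -this
    have hpl : wd (ℓ l) n0 ≠ 0 := fun hh => hne (by rw [hh]; simp)
    have hpk : wd (ℓ k) n0 ≠ 0 := fun hh => hne
      (h.skew.mem_range.1 (mem_H.1 (h.wd_mem l hn0)).2 y1 (by rw [hy0, hh]))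
    have f1 : v - c0 • n0 ∈ perp (sp (ℓ k)) :=
      perp_of_wd (by rw [map_sub, map_smul, hc0, sub_self]) hpk
    have f2 : v - c0 • n0 ∈ perp (sp (ℓ l)) :=
      perp_of_wd (by rw [map_sub, map_smul, hc1, hc, sub_self]) hpl
    have f3 : v - c0 • n0 ∈ perp (sp (ℓ k) ⊔ sp (ℓ l)) := by rw [perp_sup]; exact ⟨f1, f2⟩
    have f4 := mem_perp.1 f3 w hw.1
    rw [dotProduct_sub, dotProduct_smul, h.skew.mem_range.1 hw.2 n0 hn0] at f4
    simpa using f4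

theorem exists_q (h : Loc ℓ A) (k : I) :
    ∃ q, sp (ℓ k) ≤ H2 A (ℓ k) (ℓ k) ⊔ span F {q} := by
  by_cases ht : sp (ℓ k) ≤ LinearMap.range A
  · exact ⟨0, fun w hw => Submodule.mem_sup_left (mem_H.2 ⟨hw, ht hw⟩)⟩
  · obtain ⟨q, hq, hq'⟩ := SetLike.not_le_iff_exists.1 ht
    rw [h.skew.mem_range] at hq'
    push Not at hq'
    obtain ⟨n0, hn0, hqn⟩ := hq'
    have hn0k : n0 ∉ perp (sp (ℓ k)) := fun hh => hqn (mem_perp.1 hh q hq)
    refine ⟨q, fun w hw => ?_⟩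
    obtain ⟨c, hc⟩ := mult hn0k (h := w - (w ⬝ᵥ n0 / q ⬝ᵥ n0) • q)
      (sub_mem hw (smul_mem _ _ hq))
      (by rw [sub_dotProduct, smul_dotProduct, smul_eq_mul, div_mul_cancel₀ _ hqn, sub_self])
    have : w = c • wd (ℓ k) n0 + (w ⬝ᵥ n0 / q ⬝ᵥ n0) • q := by rw [← hc]; abel
    rw [this]
    exact add_mem (Submodule.mem_sup_left (smul_mem _ _ (h.wd_mem k hn0)))
      (Submodule.mem_sup_right (smul_mem _ _ (Submodule.mem_span_singleton_self q)))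

end Loc

/-- The blocks: classes of the equivalence generated by adjacency. -/
abbrev Blk (ℓ : I → (ι → F) × (ι → F)) (A : (ι → F) →ₗ[F] (ι → F)) : Type :=
  Quotient (Relation.EqvGen.setoid (adj ℓ A))

/-- The block of a line. -/
def blk (ℓ : I → (ι → F) × (ι → F)) (A : (ι → F) →ₗ[F] (ι → F)) (i : I) : Blk ℓ A :=
  Quotient.mk _ i

/-- The subspace of a block. -/
noncomputable def SB (ℓ : I → (ι → F) × (ι → F)) (A : (ι → F) →ₗ[F] (ι → F)) (c : Blk ℓ A) :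
    Submodule F (ι → F) :=
  ⨆ p : {p : I × I // blk ℓ A p.1 = c ∧ (p.1 = p.2 ∨ adj ℓ A p.1 p.2)}, H2 A (ℓ p.1.1) (ℓ p.1.2)

theorem blk_eq_of_adj {ℓ : I → (ι → F) × (ι → F)} {A : (ι → F) →ₗ[F] (ι → F)} {i j : I}
    (h : adj ℓ A i j) : blk ℓ A i = blk ℓ A j :=
  Quotient.sound (Relation.EqvGen.rel _ _ h)

theorem le_SB {ℓ : I → (ι → F) × (ι → F)} {A : (ι → F) →ₗ[F] (ι → F)} {i j : I} {c : Blk ℓ A}
    (hc : blk ℓ A i = c) (h : i = j ∨ adj ℓ A i j) : H2 A (ℓ i) (ℓ j) ≤ SB ℓ A c :=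
  le_iSup (fun p : {p : I × I // blk ℓ A p.1 = c ∧ (p.1 = p.2 ∨ adj ℓ A p.1 p.2)} =>
    H2 A (ℓ p.1.1) (ℓ p.1.2)) ⟨(i, j), hc, h⟩

theorem SB_le (ℓ : I → (ι → F) × (ι → F)) (A : (ι → F) →ₗ[F] (ι → F)) (c : Blk ℓ A) :
    SB ℓ A c ≤ LinearMap.range A := iSup_le fun _ => H2_le _ _ _

namespace Loc

variable {ℓ : I → (ι → F) × (ι → F)} {A : (ι → F) →ₗ[F] (ι → F)}

theorem orth1 (h : Loc ℓ A) {k l i : I} (hkl : k = l ∨ adj ℓ A k l) (hne : blk ℓ A k ≠ blk ℓ A i) :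
    Orth A (H2 A (ℓ k) (ℓ l)) (H2 A (ℓ i) (ℓ i)) := by
  have h1 : Orth A (H2 A (ℓ k) (ℓ k)) (H2 A (ℓ i) (ℓ i)) := by
    by_contra hh; exact hne (blk_eq_of_adj hh)
  rcases hkl with rfl | hkl
  · exact h1
  · refine h.keyX hkl h1 ?_
    by_contra hh
    exact hne ((blk_eq_of_adj hkl).trans (blk_eq_of_adj hh))

theorem orth2 (h : Loc ℓ A) {k l i j : I} (hkl : k = l ∨ adj ℓ A k l) (hij : i = j ∨ adj ℓ A i j)
    (hne : blk ℓ A k ≠ blk ℓ A i) : Orth A (H2 A (ℓ k) (ℓ l)) (H2 A (ℓ i) (ℓ j)) := by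
  have h1 := (h.orth1 hij hne.symm).symm h.skew (H2_le _ _ _)
  rcases hkl with rfl | hkl
  · exact h1
  · refine h.keyX hkl h1 ((h.orth1 hij ?_).symm h.skew (H2_le _ _ _))
    rw [← blk_eq_of_adj hkl]; exact hne.symm

theorem orthSB (h : Loc ℓ A) {c c' : Blk ℓ A} (hne : c ≠ c') : Orth A (SB ℓ A c) (SB ℓ A c') := by
  refine iSup_le fun p => ?_
  refine Orth.symm h.skew (P := SB ℓ A c') (iSup_le fun p' => ?_) (H2_le _ _ _)
  exact h.orth2 p'.2.2 p.2.2 (by rw [p.2.1, p'.2.1]; exact hne.symm)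

theorem codim (h : Loc ℓ A) (c : Blk ℓ A) :
    ∃ q, ∀ l, blk ℓ A l = c → sp (ℓ l) ≤ SB ℓ A c ⊔ span F {q} := by
  obtain ⟨k, rfl⟩ := Quotient.exists_rep c
  obtain ⟨q, hq⟩ := h.exists_q k
  refine ⟨q, ?_⟩
  set c : Blk ℓ A := Quotient.mk _ k with hc
  have step : ∀ a b, adj ℓ A a b → blk ℓ A a = c → sp (ℓ a) ≤ SB ℓ A c ⊔ span F {q} →
      sp (ℓ b) ≤ SB ℓ A c ⊔ span F {q} := by
    intro a b hab ha hs w hw
    obtain ⟨r, hr, w', hw', rfl⟩ := Submodule.mem_sup.1 (h.par' hab hw)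
    refine add_mem (Submodule.mem_sup_left (le_SB ha (Or.inr hab) ⟨?_, hr⟩)) (hs hw')
    have : r = (r + w') - w' := by abel
    rw [this]
    exact sub_mem (Submodule.mem_sup_right hw) (Submodule.mem_sup_left hw')
  have main : ∀ a b, Relation.EqvGen (adj ℓ A) a b → blk ℓ A a = c →
      (sp (ℓ a) ≤ SB ℓ A c ⊔ span F {q} ↔ sp (ℓ b) ≤ SB ℓ A c ⊔ span F {q}) := by
    intro a b hab
    induction hab with
    | rel a b hab =>
      intro ha
      exact ⟨step a b hab ha, step b a (h.adj_symm hab) ((blk_eq_of_adj hab).symm.trans ha)⟩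
    | refl a => intro _; exact Iff.rfl
    | symm a b hab ih =>
      intro hb
      exact (ih ((Quotient.sound hab : blk ℓ A a = blk ℓ A b).trans hb)).symm
    | trans a b d hab _ ih1 ih2 =>
      intro ha
      exact (ih1 ha).trans (ih2 ((Quotient.sound hab : blk ℓ A a = blk ℓ A b).symm.trans ha))
  intro l hl
  have h1 : Relation.EqvGen (adj ℓ A) k l := Quotient.exact (hc.symm.trans hl.symm)
  exact (main k l h1 rfl).1 (hq.trans (sup_le_sup_right (le_SB rfl (Or.inl rfl)) _))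

end Loc

end Pool.Agent.H185Z.MM
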