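import Pool.Agent.H185Z.MM.Struct

/-!
# The upper bound: at a first-order optimum the rank is twice the maximum matching size
-/

namespace Pool.Agent.H185Z.MM

open Module Submodule

set_option linter.unusedSectionVars false

variable {F : Type} [Field F] {ι : Type} [Fintype ι] [DecidableEq ι] {I : Type} [DecidableEq I]

/-- The span of the lines in `M`. -/
noncomputable def spn (ℓ : I → (ι → F) × (ι → F)) (M : Finset I) : Submodule F (ι → F) :=
  M.sup fun i => sp (ℓ i)

theorem mem_spn {ℓ : I → (ι → F) × (ι → F)} {M : Finset I} {w : ι → F} (hw : w ∈ spn ℓ M) :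
    ∃ c d : I → F, w = ∑ i ∈ M, (c i • (ℓ i).1 + d i • (ℓ i).2) := by
  induction M using Finset.induction_on generalizing w with
  | empty => exact ⟨0, 0, by simpa [spn] using hw⟩
  | insert i M hi ih =>
    rw [spn, Finset.sup_insert] at hw
    obtain ⟨a, ha, b, hb, rfl⟩ := Submodule.mem_sup.1 hw
    obtain ⟨s, t, rfl⟩ := mem_sp.1 ha
    obtain ⟨c, d, rfl⟩ := ih hb
    refine ⟨Function.update c i s, Function.update d i t, ?_⟩
    rw [Finset.sum_insert hi]
    simp only [Function.update_self]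
    congr 1
    refine Finset.sum_congr rfl fun j hj => ?_
    have : j ≠ i := fun h => hi (h ▸ hj)
    rw [Function.update_of_ne this, Function.update_of_ne this]

theorem Ind.mono {ℓ : I → (ι → F) × (ι → F)} {M M' : Finset I} (h : Ind ℓ M) (hM : M' ⊆ M) :
    Ind ℓ M' := by
  intro c d hcd i hi
  have := h (fun j => if j ∈ M' then c j else 0) (fun j => if j ∈ M' then d j else 0) (by
    rw [← hcd]
    symm
    refine Finset.sum_subset_zero_on_sdiff hM ?_ ?_
    · intro j hj
      simp [(Finset.mem_sdiff.1 hj).2]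
    · intro j hj
      simp [hj]) i (hM hi)
  simpa [hi] using this

theorem Ind.disj {ℓ : I → (ι → F) × (ι → F)} {M1 M2 : Finset I} (h : Ind ℓ (M1 ∪ M2))
    (hd : Disjoint M1 M2) : spn ℓ M1 ⊓ spn ℓ M2 = ⊥ := by
  rw [eq_bot_iff]
  rintro w ⟨h1, h2⟩
  obtain ⟨c1, d1, e1⟩ := mem_spn h1
  obtain ⟨c2, d2, e2⟩ := mem_spn h2
  have := h (fun j => if j ∈ M1 then c1 j else -c2 j) (fun j => if j ∈ M1 then d1 j else -d2 j) (by
    rw [Finset.sum_union hd]
    have a1 : ∑ j ∈ M1, ((if j ∈ M1 then c1 j else -c2 j) • (ℓ j).1 +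
        (if j ∈ M1 then d1 j else -d2 j) • (ℓ j).2) = w := by
      rw [e1]; exact Finset.sum_congr rfl fun j hj => by simp [hj]
    have a2 : ∑ j ∈ M2, ((if j ∈ M1 then c1 j else -c2 j) • (ℓ j).1 +
        (if j ∈ M1 then d1 j else -d2 j) • (ℓ j).2) = -w := by
      rw [e2, ← Finset.sum_neg_distrib]
      refine Finset.sum_congr rfl fun j hj => ?_
      have : j ∉ M1 := fun hh => Finset.disjoint_left.1 hd hh hj
      simp [this, add_comm]
    rw [a1, a2, add_neg_cancel])
  rw [Submodule.mem_bot, e1]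
  refine Finset.sum_eq_zero fun j hj => ?_
  have h3 := this j (Finset.mem_union_left _ hj)
  simp only [hj, if_true] at h3
  rw [h3.1, h3.2]; simp

theorem Ind.finrank {ℓ : I → (ι → F) × (ι → F)} {M : Finset I} (h : Ind ℓ M) :
    finrank F (spn ℓ M) = 2 * M.card := by
  induction M using Finset.induction_on with
  | empty => rw [spn, Finset.sup_empty, finrank_bot]; simp
  | insert i M hi ih =>
    have h1 := ih (h.mono (Finset.subset_insert _ _))
    have h2 : spn ℓ {i} ⊓ spn ℓ M = ⊥ :=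
      Ind.disj (by rwa [← Finset.insert_eq]) (Finset.disjoint_singleton_left.2 hi)
    have h3 : spn ℓ (insert i M) = spn ℓ {i} ⊔ spn ℓ M := by simp [spn]
    have h4 := Submodule.finrank_sup_add_finrank_inf_eq (spn ℓ {i}) (spn ℓ M)
    have h5 : Module.finrank F (spn ℓ {i}) = 2 := by
      have h6 : LinearIndependent F ![(ℓ i).1, (ℓ i).2] := by
        rw [LinearIndependent.pair_iff]
        intro s t hst
        exact (h.mono (Finset.singleton_subset_iff.2 (Finset.mem_insert_self i M)))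
          (fun _ => s) (fun _ => t) (by simpa using hst) i (Finset.mem_singleton_self i)
      have h7 := finrank_span_eq_card h6
      have h8 : spn ℓ {i} = span F (Set.range ![(ℓ i).1, (ℓ i).2]) := by
        simp [spn, sp, Set.pair_comm]
      rw [h8, h7]; simp
    rw [h2, finrank_bot] at h4
    rw [h3, Finset.card_insert_of_notMem hi]
    omega

variable [Fintype I]

theorem upper (ℓ : I → (ι → F) × (ι → F)) (x : I → F) (h : Loc ℓ (Aop ℓ x Finset.univ))
    (M : Finset I) (hM : Ind ℓ M) :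
    2 * M.card ≤ finrank F (LinearMap.range (Aop ℓ x Finset.univ)) := by
  classical
  set A := Aop ℓ x Finset.univ with hA
  set S : Submodule F (ι → F) := ⨆ c, SB ℓ A c with hS
  set Z : Submodule F (ι → F) := (perp S).map A with hZ
  have hSr : S ≤ LinearMap.range A := iSup_le fun c => SB_le ℓ A c
  have hkS : LinearMap.ker A ≤ perp S := le_perp_comm (by rw [← h.skew.range_eq]; exact hSr)
  have hZS : Z ≤ S := by
    rintro _ ⟨y, hy, rfl⟩
    rw [hA, Aop_apply]
    refine Submodule.sum_mem _ fun i _ => Submodule.smul_mem _ _ ?_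
    have h1 : H2 A (ℓ i) (ℓ i) ≤ S := (le_SB rfl (Or.inl rfl)).trans (le_iSup (SB ℓ A) _)
    refine h1 (mem_H.2 ⟨wd_mem_sp _ _, h.skew.mem_range.2 fun n hn => ?_⟩)
    rw [(wd_skew _).swap, mem_perp.1 hy _ (h1 (h.wd_mem i hn)), neg_zero]
  have hdim : finrank F S + finrank F Z = finrank F (LinearMap.range A) := by
    have h1 := finrank_map_add A (perp S)
    rw [inf_eq_right.2 hkS, ← hZ] at h1
    have h2 := finrank_perp S
    have h3 := LinearMap.finrank_range_add_finrank_ker A
    rw [Module.finrank_fintype_fun_eq_card] at h3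
    omega
  have perpS : ∀ c y, A y ∈ SB ℓ A c → (∀ s ∈ SB ℓ A c, s ⬝ᵥ y = 0) → y ∈ perp S := by
    intro c y hy hs
    have : S ≤ perp (span F {y}) := by
      refine iSup_le fun c' => ?_
      intro s hs'
      rw [mem_perp]
      intro w hw
      obtain ⟨a, rfl⟩ := Submodule.mem_span_singleton.1 hw
      rw [smul_dotProduct, dotProduct_comm]
      by_cases hc : c' = c
      · subst hc; rw [hs s hs', smul_zero]
      · rw [(h.orthSB hc).dot hs' hy, smul_zero]
    exact le_perp_comm this (Submodule.mem_span_singleton_self y)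
  have hZo : ∀ z ∈ Z, ∀ v, A v ∈ S → z ⬝ᵥ v = 0 := by
    rintro _ ⟨y, hy, rfl⟩ v hv
    rw [h.skew.swap, mem_perp.1 hy _ hv, neg_zero]
  have heven : ∀ c, ∃ m, finrank F (SB ℓ A c) =
      finrank F (SB ℓ A c ⊓ Z : Submodule F (ι → F)) + 2 * m := by
    intro c
    obtain ⟨m, hm⟩ := h.skew.even _ ((SB ℓ A c).comap A) rfl
    refine ⟨m, ?_⟩
    have h1 := finrank_map_add A ((SB ℓ A c).comap A)
    have h2 := finrank_map_add A (rad A ((SB ℓ A c).comap A))
    have e1 : LinearMap.ker A ≤ rad A ((SB ℓ A c).comap A) := by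
      intro n hn
      rw [LinearMap.mem_ker] at hn
      exact mem_rad.2 ⟨by rw [Submodule.mem_comap, hn]; exact zero_mem _,
        fun w _ => by rw [hn]; simp⟩
    rw [inf_eq_right.2 (e1.trans (rad_le _ _)), Submodule.map_comap_eq_of_le (SB_le ℓ A c)] at h1
    have e2 : (rad A ((SB ℓ A c).comap A)).map A = SB ℓ A c ⊓ Z := by
      apply le_antisymm
      · rintro _ ⟨y, hy, rfl⟩
        have hy' := mem_rad.1 hy
        refine ⟨hy'.1, y, perpS c y hy'.1 fun s hs => ?_, rfl⟩
        obtain ⟨w, rfl⟩ := SB_le ℓ A c hs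
        rw [h.skew.swap, dotProduct_comm, hy'.2 w hs, neg_zero]
      · rintro _ ⟨hs, y, hy, rfl⟩
        refine ⟨y, mem_rad.2 ⟨hs, fun w hw => ?_⟩, rfl⟩
        rw [dotProduct_comm, h.skew.swap, mem_perp.1 hy _ (le_iSup (SB ℓ A) c hw), neg_zero]
    rw [inf_eq_right.2 e1, e2] at h2
    omega
  have claim : ∀ T : Finset (Blk ℓ A),
      finrank F Z + 2 * (M.filter fun i => blk ℓ A i ∈ T).card ≤
        finrank F (Z ⊔ T.sup (SB ℓ A) : Submodule F (ι → F)) +
          2 * finrank F (Z ⊓ spn ℓ (M.filter fun i => blk ℓ A i ∈ T) : Submodule F (ι → F)) := by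
    intro T
    induction T using Finset.induction_on with
    | empty =>
      have := Submodule.finrank_mono (le_sup_left : Z ≤ Z ⊔ (∅ : Finset (Blk ℓ A)).sup (SB ℓ A))
      have e : (M.filter fun i => blk ℓ A i ∈ (∅ : Finset (Blk ℓ A))).card = 0 := by simp
      omega
    | insert c T hc ih =>
      set M1 := M.filter fun i => blk ℓ A i ∈ T with hM1
      set M2 := M.filter fun i => blk ℓ A i = c with hM2
      have hd : Disjoint M1 M2 := by
        rw [Finset.disjoint_left]
        intro i h1 h2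
        exact hc ((Finset.mem_filter.1 h2).2 ▸ (Finset.mem_filter.1 h1).2)
      have hu : (M.filter fun i => blk ℓ A i ∈ insert c T) = M1 ∪ M2 := by
        ext i
        simp only [hM1, hM2, Finset.mem_filter, Finset.mem_insert, Finset.mem_union]
        tauto
      have hsub : M1 ∪ M2 ⊆ M := Finset.union_subset (Finset.filter_subset _ _)
        (Finset.filter_subset _ _)
      rw [hu, Finset.card_union_of_disjoint hd, Finset.sup_insert]
      -- (1)
      have a1 := Submodule.finrank_sup_add_finrank_inf_eq (Z ⊔ T.sup (SB ℓ A)) (SB ℓ A c)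
      have a1' : (Z ⊔ T.sup (SB ℓ A)) ⊓ SB ℓ A c ≤ SB ℓ A c ⊓ Z := by
        rintro s ⟨hs1, hs2⟩
        refine ⟨hs2, ?_⟩
        obtain ⟨y, rfl⟩ := SB_le ℓ A c hs2
        refine ⟨y, perpS c y hs2 fun w hw => ?_, rfl⟩
        obtain ⟨v, rfl⟩ := SB_le ℓ A c hw
        obtain ⟨z, hz, t, ht, hzt⟩ := Submodule.mem_sup.1 hs1
        have ho : Orth A (T.sup (SB ℓ A)) (SB ℓ A c) :=
          Finset.sup_le fun c' hc' => h.orthSB fun hh => hc (hh ▸ hc')
        rw [h.skew.swap, ← hzt, add_dotProduct, hZo z hz v (le_iSup (SB ℓ A) c hw), ho.dot ht hw]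
        simp
      have a1'' := Submodule.finrank_mono a1'
      have a1e : Z ⊔ (SB ℓ A c ⊔ T.sup (SB ℓ A)) = Z ⊔ T.sup (SB ℓ A) ⊔ SB ℓ A c := by
        rw [sup_comm (SB ℓ A c), sup_assoc]
      rw [a1e]
      -- (2)
      obtain ⟨m, a2⟩ := heven c
      -- (3)
      obtain ⟨q, hq⟩ := h.codim c
      have hU : finrank F (spn ℓ M2) = 2 * M2.card :=
        (hM.mono (Finset.filter_subset _ _)).finrank
      have b1 : spn ℓ M2 ⊔ SB ℓ A c ≤ SB ℓ A c ⊔ span F {q} :=
        sup_le (Finset.sup_le fun i hi => hq i (Finset.mem_filter.1 hi).2) le_sup_left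
      have b2 := Submodule.finrank_mono b1
      have b3 := Submodule.finrank_sup_add_finrank_inf_eq (SB ℓ A c) (span F {q})
      have b4 : finrank F (span F {q} : Submodule F (ι → F)) ≤ 1 := by
        simpa using finrank_span_le_card (R := F) ({q} : Set (ι → F))
      have b5 := Submodule.finrank_sup_add_finrank_inf_eq (spn ℓ M2) (SB ℓ A c)
      have b6 := Submodule.finrank_sup_add_finrank_inf_eq (spn ℓ M2 ⊓ SB ℓ A c) (SB ℓ A c ⊓ Z)
      have b7 : spn ℓ M2 ⊓ SB ℓ A c ⊔ SB ℓ A c ⊓ Z ≤ SB ℓ A c := sup_le inf_le_right inf_le_left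
      have b8 : spn ℓ M2 ⊓ SB ℓ A c ⊓ (SB ℓ A c ⊓ Z) ≤ Z ⊓ spn ℓ M2 :=
        fun w hw => ⟨hw.2.2, hw.1.1⟩
      have b9 := Submodule.finrank_mono b7
      have b10 := Submodule.finrank_mono b8
      -- (4)
      have c1 := Submodule.finrank_sup_add_finrank_inf_eq (Z ⊓ spn ℓ M1) (Z ⊓ spn ℓ M2)
      have c2 : Z ⊓ spn ℓ M1 ⊓ (Z ⊓ spn ℓ M2) = ⊥ := by
        rw [eq_bot_iff, ← Ind.disj (hM.mono hsub) hd]
        exact fun w hw => ⟨hw.1.2, hw.2.2⟩
      have c3 : Z ⊓ spn ℓ M1 ⊔ Z ⊓ spn ℓ M2 ≤ Z ⊓ spn ℓ (M1 ∪ M2) := by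
        refine sup_le (inf_le_inf_left _ ?_) (inf_le_inf_left _ ?_)
        · exact Finset.sup_mono Finset.subset_union_left
        · exact Finset.sup_mono Finset.subset_union_right
      have c4 := Submodule.finrank_mono c3
      rw [c2, finrank_bot] at c1
      omega
  have h1 := claim (M.image (blk ℓ A))
  have h2 : (M.filter fun i => blk ℓ A i ∈ M.image (blk ℓ A)) = M :=
    Finset.filter_true_of_mem fun i hi => Finset.mem_image_of_mem _ hi
  rw [h2] at h1
  have h3 : Z ⊔ (M.image (blk ℓ A)).sup (SB ℓ A) ≤ S :=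
    sup_le hZS (Finset.sup_le fun c _ => le_iSup (SB ℓ A) c)
  have h4 := Submodule.finrank_mono h3
  have h5 := Submodule.finrank_mono (inf_le_left : Z ⊓ spn ℓ M ≤ Z)
  omega

end Pool.Agent.H185Z.MM
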